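import Mathlib

/-!
# Pairs of different colours with a bounded sum
-/

set_option autoImplicit false

namespace Pool.Agent.Q277.RB

open Finset

lemma sum_min (γ j : ℕ) : 2 * ∑ r ∈ range (γ + j), min r γ + γ * (γ + 1) ≤ 2 * (γ + j) * γ := by
  induction j with
  | zero =>
    have h1 : ∑ r ∈ range (γ + 0), min r γ ≤ ∑ r ∈ range γ, r := by
      rw [add_zero]
      exact sum_le_sum fun r _ => min_le_left r γ
    have h2 := Finset.sum_range_id_mul_two γ
    rcases Nat.eq_zero_or_pos γ with h | h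
    · subst h
      simp
    · obtain ⟨g, rfl⟩ : ∃ g, γ = g + 1 := ⟨γ - 1, by omega⟩
      rw [Nat.add_sub_cancel] at h2
      nlinarith
  | succ j ih =>
    rw [← add_assoc, sum_range_succ]
    have : min (γ + j) γ ≤ γ := min_le_right _ _
    nlinarith

/-- For disjoint sets `P`, `Q` of numbers `> s` there are at most `n ^ 2 / 6` pairs `(p, q)` with
`(p - s) + (q - s) ≤ n`. -/
lemma cut (P Q : Finset ℕ) (s n : ℕ) (hP : ∀ t ∈ P, s < t) (hQ : ∀ t ∈ Q, s < t) (hd : ∀ t ∈ P, t ∉ Q) :
    6 * ((P ×ˢ Q).filter fun t => t.1 + t.2 ≤ 2 * s + n).card ≤ n ^ 2 := by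
  set h := n / 2 with hh
  set P1 := P.filter (fun t => t ≤ s + h) with hP1
  set Q1 := Q.filter (fun t => t ≤ s + h) with hQ1
  set P2 := P.filter (fun t => ¬ t ≤ s + h) with hP2
  set Q2 := Q.filter (fun t => ¬ t ≤ s + h) with hQ2
  set γ := max P1.card Q1.card with hγ
  set φ : ℕ → ℕ := fun w => min (s + n - w) γ with hφ
  have hsub : (P ×ˢ Q).filter (fun t => t.1 + t.2 ≤ 2 * s + n) ⊆
      (P1 ×ˢ Q1) ∪ ((Q2.biUnion fun q => (P.filter fun p => p + q ≤ 2 * s + n).image fun p => (p, q)) ∪
        (P2.biUnion fun p => (Q.filter fun q => p + q ≤ 2 * s + n).image fun q => (p, q))) := by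
    rintro ⟨p, q⟩ ht
    simp only [mem_filter, mem_product] at ht
    obtain ⟨⟨hp, hq⟩, ht⟩ := ht
    simp only [mem_union, mem_product, mem_biUnion, mem_image, hP1, hQ1, hP2, hQ2, mem_filter, Prod.mk.injEq]
    by_cases h1 : q ≤ s + h
    · by_cases h2 : p ≤ s + h
      · exact Or.inl ⟨⟨hp, h2⟩, ⟨hq, h1⟩⟩
      · exact Or.inr (Or.inr ⟨p, ⟨hp, h2⟩, q, ⟨hq, ht⟩, rfl, rfl⟩)
    · exact Or.inr (Or.inl ⟨q, ⟨hq, h1⟩, p, ⟨hp, ht⟩, rfl, rfl⟩)
  have hγ1 : ∀ q ∈ Q2, (((P.filter fun p => p + q ≤ 2 * s + n).image fun p => (p, q)) : Finset (ℕ × ℕ)).card ≤ φ q := by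
    intro q hq
    rw [hQ2, mem_filter] at hq
    refine card_image_le.trans (le_min ?_ ?_)
    · have : (P.filter fun p => p + q ≤ 2 * s + n) ⊆ Ioc s (2 * s + n - q) := by
        intro p hp
        rw [mem_filter] at hp
        rw [mem_Ioc]
        have := hP p hp.1
        omega
      refine (card_le_card this).trans ?_
      rw [Nat.card_Ioc]
      omega
    · refine le_trans (card_le_card ?_) (le_max_left _ _)
      intro p hp
      rw [mem_filter] at hp
      rw [hP1, mem_filter]
      refine ⟨hp.1, ?_⟩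
      omega
  have hγ2 : ∀ p ∈ P2, (((Q.filter fun q => p + q ≤ 2 * s + n).image fun q => (p, q)) : Finset (ℕ × ℕ)).card ≤ φ p := by
    intro p hp
    rw [hP2, mem_filter] at hp
    refine card_image_le.trans (le_min ?_ ?_)
    · have : (Q.filter fun q => p + q ≤ 2 * s + n) ⊆ Ioc s (2 * s + n - p) := by
        intro q hq
        rw [mem_filter] at hq
        rw [mem_Ioc]
        have := hQ q hq.1
        omega
      refine (card_le_card this).trans ?_
      rw [Nat.card_Ioc]
      omega
    · refine le_trans (card_le_card ?_) (le_max_right _ _)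
      intro q hq
      rw [mem_filter] at hq
      rw [hQ1, mem_filter]
      refine ⟨hq.1, ?_⟩
      omega
  have hsum : ∑ q ∈ Q2, φ q + ∑ p ∈ P2, φ p ≤ ∑ r ∈ range (n - h), min r γ := by
    have hdis : Disjoint Q2 P2 := by
      rw [disjoint_left]
      intro t h1 h2
      rw [hQ2, mem_filter] at h1
      rw [hP2, mem_filter] at h2
      exact hd t h2.1 h1.1
    rw [← sum_union hdis]
    have h1 : ∑ w ∈ Q2 ∪ P2, φ w ≤ ∑ w ∈ Ioc (s + h) (s + n), φ w := by
      apply sum_le_sum_of_ne_zero
      intro w hw hne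
      have h2 : s + h < w := by
        rw [mem_union, hQ2, hP2, mem_filter, mem_filter] at hw
        omega
      have h3 : w < s + n := by
        by_contra h4
        apply hne
        simp only [hφ]
        rw [Nat.sub_eq_zero_of_le (by omega)]
        simp
      rw [mem_Ioc]
      omega
    refine h1.trans (le_of_eq ?_)
    apply Finset.sum_nbij' (fun w => s + n - w) (fun r => s + n - r)
    · intro w hw
      rw [mem_Ioc] at hw
      rw [mem_range]
      omega
    · intro r hr
      rw [mem_range] at hr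
      rw [mem_Ioc]
      omega
    · intro w hw
      rw [mem_Ioc] at hw
      omega
    · intro r hr
      rw [mem_range] at hr
      omega
    · intro w _
      rfl
  have hcard : ((P ×ˢ Q).filter fun t => t.1 + t.2 ≤ 2 * s + n).card ≤
      P1.card * Q1.card + ∑ r ∈ range (n - h), min r γ := by
    refine (card_le_card hsub).trans ((card_union_le _ _).trans ?_)
    rw [card_product]
    apply Nat.add_le_add_left
    refine (card_union_le _ _).trans (le_trans (Nat.add_le_add ?_ ?_) hsum)
    · exact card_biUnion_le.trans (sum_le_sum hγ1)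
    · exact card_biUnion_le.trans (sum_le_sum hγ2)
  have hbc : P1.card + Q1.card ≤ h := by
    have h1 : Disjoint P1 Q1 := by
      rw [disjoint_left]
      intro t h1 h2
      rw [hP1, mem_filter] at h1
      rw [hQ1, mem_filter] at h2
      exact hd t h1.1 h2.1
    rw [← card_union_of_disjoint h1]
    have h2 : P1 ∪ Q1 ⊆ Ioc s (s + h) := by
      intro t ht
      rw [mem_union, hP1, hQ1, mem_filter, mem_filter] at ht
      rw [mem_Ioc]
      rcases ht with ht | ht
      · exact ⟨hP t ht.1, ht.2⟩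
      · exact ⟨hQ t ht.1, ht.2⟩
    refine (card_le_card h2).trans ?_
    rw [Nat.card_Ioc]
    omega
  have hγh : γ ≤ n - h := by
    rw [hγ]
    have h1 : P1.card ≤ h := by omega
    have h2 : Q1.card ≤ h := by omega
    have h3 : h ≤ n - h := by omega
    exact (max_le h1 h2).trans h3
  obtain ⟨j, hj⟩ := Nat.exists_eq_add_of_le hγh
  have h5 := sum_min γ j
  rw [← hj] at h5
  obtain ⟨N, hN⟩ : ∃ N, N = n - h := ⟨_, rfl⟩
  rw [← hN] at h5 hcard
  have hN2 : N + h = n := by omega
  set W := ∑ r ∈ range N, min r γ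
  have h6 : P1.card * Q1.card + γ * γ ≤ γ * h := by
    rcases le_total P1.card Q1.card with h7 | h7
    · have : γ = Q1.card := max_eq_right h7
      rw [this]
      nlinarith
    · have : γ = P1.card := max_eq_left h7
      rw [this]
      nlinarith
  have h8 : 6 * (P1.card * Q1.card + W) ≤ n ^ 2 := by
    have h9 : (6 : ℤ) * (P1.card * Q1.card + W) ≤ (n : ℤ) ^ 2 := by
      have e1 : (2 : ℤ) * W + γ * (γ + 1) ≤ 2 * N * γ := by exact_mod_cast h5
      have e2 : (P1.card : ℤ) * Q1.card + γ * γ ≤ γ * h := by exact_mod_cast h6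
      have e3 : (N : ℤ) + h = n := by exact_mod_cast hN2
      have e4 : (0 : ℤ) ≤ γ := Int.natCast_nonneg _
      have e5 : (6 : ℤ) * (P1.card * Q1.card + W) ≤ 6 * (γ * h - γ * γ) + 3 * (2 * N * γ - γ * (γ + 1)) := by linarith
      have e6 : (6 : ℤ) * (γ * h - γ * γ) + 3 * (2 * N * γ - γ * (γ + 1)) = 6 * γ * (N + h) - 9 * γ ^ 2 - 3 * γ := by ring
      rw [e6, e3] at e5
      nlinarith [sq_nonneg ((n : ℤ) - 3 * γ)]
    exact_mod_cast h9
  exact (Nat.mul_le_mul_left 6 hcard).trans h8

end Pool.Agent.Q277.RB
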