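import Mathlib

/-!
# The kernel `max (m - |p - q|) 0`
-/

set_option autoImplicit false

namespace Pool.Agent.Q277.RB

open Finset

/-- The kernel `max (m - |p - q|) 0`. -/
def ker (m : ℕ) (p q : ℕ) : ℤ := max 0 ((m : ℤ) - |(p : ℤ) - q|)

/-- The sum of the kernel over `S × T`. -/
def K (m : ℕ) (S T : Finset ℕ) : ℤ := ∑ p ∈ S, ∑ q ∈ T, ker m p q

lemma ker_nonneg (m p q : ℕ) : 0 ≤ ker m p q := le_max_left _ _

lemma ker_comm (m p q : ℕ) : ker m p q = ker m q p := by unfold ker; rw [abs_sub_comm]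

lemma ker_self (m p : ℕ) : ker m p p = m := by unfold ker; simp

lemma K_comm (m : ℕ) (S T : Finset ℕ) : K m S T = K m T S := by
  unfold K
  rw [sum_comm]
  exact sum_congr rfl fun q _ => sum_congr rfl fun p _ => ker_comm m p q

lemma K_union_left (m : ℕ) {S S' : Finset ℕ} (T : Finset ℕ) (h : Disjoint S S') :
    K m (S ∪ S') T = K m S T + K m S' T := by
  unfold K
  rw [sum_union h]

lemma K_union_right (m : ℕ) (S : Finset ℕ) {T T' : Finset ℕ} (h : Disjoint T T') :
    K m S (T ∪ T') = K m S T + K m S T' := by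
  rw [K_comm, K_union_left m S h, K_comm m T, K_comm m T']

lemma K_nonneg (m : ℕ) (S T : Finset ℕ) : 0 ≤ K m S T :=
  sum_nonneg fun p _ => sum_nonneg fun q _ => ker_nonneg m p q

/-- `∑_{j ≤ n} max (m - j) 0` -/
def sm (m n : ℕ) : ℤ := ∑ j ∈ Icc 1 n, max 0 ((m : ℤ) - (j : ℕ))

/-- `j (j + 1)` for `j ≥ 0` -/
def th (j : ℤ) : ℤ := max j 0 * (max j 0 + 1)

lemma th_nonneg (j : ℤ) : 0 ≤ th j := by
  unfold th
  have := le_max_right j 0
  positivity

lemma th_step (j : ℤ) : th j - th (j - 1) = 2 * max 0 j := by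
  unfold th
  rcases le_or_gt j 0 with h | h
  · rw [max_eq_right h, max_eq_right (by omega), max_eq_left h]
    ring
  · rw [max_eq_left h.le, max_eq_left (by omega : (0 : ℤ) ≤ j - 1), max_eq_right h.le]
    ring

lemma sm_eq (m n : ℕ) : 2 * sm m n = (m : ℤ) ^ 2 - m - th ((m : ℤ) - 1 - n) := by
  induction n with
  | zero =>
    unfold sm th
    rcases Nat.eq_zero_or_pos m with h | h
    · subst h
      simp
    · have : max ((m : ℤ) - 1 - (0 : ℕ)) 0 = m - 1 := by
        rw [max_eq_left] <;> push_cast <;> omega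
      rw [this]
      simp
      ring
  | succ n ih =>
    have h1 : sm m (n + 1) = sm m n + max 0 ((m : ℤ) - ((n + 1 : ℕ) : ℤ)) := by
      unfold sm
      rw [sum_Icc_succ_top (by omega)]
    have h2 := th_step ((m : ℤ) - 1 - n)
    have h3 : (m : ℤ) - ((n + 1 : ℕ) : ℤ) = m - 1 - n := by push_cast; ring
    have h4 : (m : ℤ) - 1 - ((n + 1 : ℕ) : ℤ) = m - 1 - n - 1 := by push_cast; ring
    rw [h1, h3, h4, mul_add, ih]
    linarith

lemma sum_Ico_ker (m p u : ℕ) (h : u ≤ p) : ∑ z ∈ Ico u p, ker m p z = sm m (p - u) := by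
  unfold sm
  apply Finset.sum_nbij' (fun z => p - z) (fun j => p - j)
  · intro z hz
    rw [mem_Ico] at hz
    rw [mem_Icc]
    omega
  · intro j hj
    rw [mem_Icc] at hj
    rw [mem_Ico]
    omega
  · intro z hz
    rw [mem_Ico] at hz
    omega
  · intro j hj
    rw [mem_Icc] at hj
    omega
  · intro z hz
    rw [mem_Ico] at hz
    unfold ker
    rw [abs_of_nonneg (by omega), Nat.cast_sub hz.2.le]

lemma sum_Ioc_ker (m p w : ℕ) (h : p ≤ w) : ∑ z ∈ Ioc p w, ker m p z = sm m (w - p) := by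
  unfold sm
  apply Finset.sum_nbij' (fun z => z - p) (fun j => p + j)
  · intro z hz
    rw [mem_Ioc] at hz
    rw [mem_Icc]
    omega
  · intro j hj
    rw [mem_Icc] at hj
    rw [mem_Ioc]
    omega
  · intro z hz
    rw [mem_Ioc] at hz
    omega
  · intro j hj
    rw [mem_Icc] at hj
    omega
  · intro z hz
    rw [mem_Ioc] at hz
    unfold ker
    rw [abs_of_nonpos (by omega), Nat.cast_sub hz.1.le]
    congr 2
    ring

/-- The sum of the kernel over an interval. -/
lemma sum_Icc_ker (m p u w : ℕ) (hu : u ≤ p) (hw : p ≤ w) :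
    2 * ∑ z ∈ Icc u w, ker m p z = 2 * (m : ℤ) ^ 2 - th ((m : ℤ) - 1 - (p - u : ℕ)) - th ((m : ℤ) - 1 - (w - p : ℕ)) := by
  have h1 : Icc u w = Ico u p ∪ ({p} ∪ Ioc p w) := by
    ext z
    simp only [mem_Icc, mem_union, mem_Ico, mem_singleton, mem_Ioc]
    omega
  have h2 : Disjoint (Ico u p) ({p} ∪ Ioc p w) := by
    rw [disjoint_left]
    intro z
    simp only [mem_union, mem_Ico, mem_singleton, mem_Ioc]
    omega
  have h3 : Disjoint ({p} : Finset ℕ) (Ioc p w) := by
    rw [disjoint_left]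
    intro z
    simp only [mem_singleton, mem_Ioc]
    omega
  rw [h1, sum_union h2, sum_union h3, sum_singleton, ker_self, sum_Ico_ker m p u hu, sum_Ioc_ker m p w hw]
  have h4 := sm_eq m (p - u)
  have h5 := sm_eq m (w - p)
  linarith

/-- `∑_{i < n} θ(m - 1 - i)` -/
def Th (m n : ℕ) : ℤ := ∑ i ∈ range n, th ((m : ℤ) - 1 - i)

lemma Th_eq (m n : ℕ) : 3 * Th m n = (m : ℤ) ^ 3 - m - ((max ((m : ℤ) - n) 0) ^ 3 - max ((m : ℤ) - n) 0) := by
  induction n with
  | zero =>
    unfold Th
    have : max ((m : ℤ) - (0 : ℕ)) 0 = m := by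
      rw [max_eq_left] <;> push_cast <;> omega
    rw [this]
    simp
  | succ n ih =>
    have h1 : Th m (n + 1) = Th m n + th ((m : ℤ) - 1 - n) := by
      unfold Th
      rw [sum_range_succ]
    rw [h1, mul_add, ih]
    unfold th
    have h3 : (m : ℤ) - ((n + 1 : ℕ) : ℤ) = m - 1 - n := by push_cast; ring
    rw [h3]
    rcases le_or_gt ((m : ℤ) - n) 0 with h | h
    · rw [max_eq_right h, max_eq_right (by omega)]
      ring
    · rw [max_eq_left h.le, max_eq_left (by omega : (0 : ℤ) ≤ (m : ℤ) - 1 - n)]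
      ring

lemma Th_of_le {m n : ℕ} (h : m ≤ n) : 3 * Th m n = (m : ℤ) ^ 3 - m := by
  rw [Th_eq, max_eq_right (by omega)]
  ring

/-- distances are at least differences of ranks -/
lemma sum_le_sm (m s : ℕ) : ∀ (S : Finset ℕ), (∀ t ∈ S, t < s) → ∑ t ∈ S, ker m s t ≤ sm m S.card := by
  intro S
  induction S using Finset.induction_on_min with
  | empty => intro _; simp [sm]
  | insert x S hx ih =>
    intro hS
    have hx' : x ∉ S := fun h => lt_irrefl _ (hx x h)
    rw [sum_insert hx', card_insert_of_notMem hx']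
    have h1 : sm m (S.card + 1) = sm m S.card + max 0 ((m : ℤ) - ((S.card + 1 : ℕ) : ℤ)) := by
      unfold sm
      rw [sum_Icc_succ_top (by omega)]
    have h2 := ih fun t ht => hS t (mem_insert_of_mem ht)
    have h3 : x < s := hS x (mem_insert_self x S)
    have h4 : S.card ≤ s - x - 1 := by
      have : S ⊆ Ioo x s := by
        intro t ht
        rw [mem_Ioo]
        exact ⟨hx t ht, hS t (mem_insert_of_mem ht)⟩
      have := card_le_card this
      rw [Nat.card_Ioo] at this
      exact this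
    have h5 : ker m s x ≤ max 0 ((m : ℤ) - ((S.card + 1 : ℕ) : ℤ)) := by
      unfold ker
      apply max_le_max_left
      rw [abs_of_nonneg (by omega)]
      push_cast
      omega
    rw [h1]
    linarith

/-- **The rearrangement inequality**: the sum of the kernel over `S × S` is at most the sum for an interval. -/
lemma K_self_le (m : ℕ) (S : Finset ℕ) : K m S S ≤ S.card * (m : ℤ) ^ 2 - Th m S.card := by
  induction S using Finset.induction_on_max with
  | empty => simp [K, Th]
  | insert x S hx ih =>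
    have hx' : x ∉ S := fun h => lt_irrefl _ (hx x h)
    have h1 : K m (insert x S) (insert x S) = K m S S + 2 * ∑ t ∈ S, ker m x t + m := by
      unfold K
      rw [sum_insert hx']
      have : ∑ p ∈ S, ∑ q ∈ insert x S, ker m p q = ∑ t ∈ S, ker m x t + ∑ p ∈ S, ∑ q ∈ S, ker m p q := by
        rw [← sum_add_distrib]
        apply sum_congr rfl
        intro p _
        rw [sum_insert hx', ker_comm m p x]
      rw [this, sum_insert hx', ker_self]
      ring
    have h2 := sum_le_sm m x S hx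
    have h3 := sm_eq m S.card
    have h4 : Th m (S.card + 1) = Th m S.card + th ((m : ℤ) - 1 - S.card) := by
      unfold Th
      rw [sum_range_succ]
    rw [h1, card_insert_of_notMem hx', h4]
    push_cast
    linarith

lemma K_self_le' {m : ℕ} {S : Finset ℕ} (h : m ≤ S.card) : 3 * K m S S ≤ 3 * (S.card * (m : ℤ) ^ 2) - ((m : ℤ) ^ 3 - m) := by
  have h1 := K_self_le m S
  have h2 := Th_of_le h
  linarith

/-- The sum of the kernel over an interval of length `n`. -/
lemma K_Icc (m u n : ℕ) : K m (Icc (u + 1) (u + n)) (Icc (u + 1) (u + n)) = n * (m : ℤ) ^ 2 - Th m n := by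
  have h1 : 2 * K m (Icc (u + 1) (u + n)) (Icc (u + 1) (u + n)) = 2 * (n * (m : ℤ) ^ 2 - Th m n) := by
    unfold K
    rw [mul_sum]
    have h2 : ∀ p ∈ Icc (u + 1) (u + n), 2 * ∑ z ∈ Icc (u + 1) (u + n), ker m p z =
        2 * (m : ℤ) ^ 2 - th ((m : ℤ) - 1 - (p - (u + 1) : ℕ)) - th ((m : ℤ) - 1 - (u + n - p : ℕ)) := by
      intro p hp
      rw [mem_Icc] at hp
      exact sum_Icc_ker m p (u + 1) (u + n) hp.1 hp.2
    rw [sum_congr rfl h2, sum_sub_distrib, sum_sub_distrib, sum_const, Nat.card_Icc]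
    have h3 : ∑ p ∈ Icc (u + 1) (u + n), th ((m : ℤ) - 1 - (p - (u + 1) : ℕ)) = Th m n := by
      unfold Th
      apply Finset.sum_nbij' (fun p => p - (u + 1)) (fun i => u + 1 + i)
      · intro p hp
        rw [mem_Icc] at hp
        rw [mem_range]
        omega
      · intro i hi
        rw [mem_range] at hi
        rw [mem_Icc]
        omega
      · intro p hp
        rw [mem_Icc] at hp
        omega
      · intro i hi
        rw [mem_range] at hi
        omega
      · intro p _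
        rfl
    have h4 : ∑ p ∈ Icc (u + 1) (u + n), th ((m : ℤ) - 1 - (u + n - p : ℕ)) = Th m n := by
      unfold Th
      apply Finset.sum_nbij' (fun p => u + n - p) (fun i => u + n - i)
      · intro p hp
        rw [mem_Icc] at hp
        rw [mem_range]
        omega
      · intro i hi
        rw [mem_range] at hi
        rw [mem_Icc]
        omega
      · intro p hp
        rw [mem_Icc] at hp
        omega
      · intro i hi
        rw [mem_range] at hi
        omega
      · intro p _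
        rfl
    rw [h3, h4]
    have h5 : u + n + 1 - (u + 1) = n := by omega
    rw [h5, nsmul_eq_mul]
    ring
  linarith

/-! ### A positive kernel -/

/-- the sign of `u` if `|u| ≥ h`, else `0` -/
def fh (h : ℕ) (u : ℤ) : ℤ := if (h : ℤ) ≤ u then 1 else if (h : ℤ) ≤ -u then -1 else 0

/-- `u` restricted to `[-H, H]` -/
def cl (H : ℕ) (u : ℤ) : ℤ := max (-(H : ℤ)) (min (H : ℤ) u)

lemma sum_fh (H : ℕ) (u : ℤ) : ∑ h ∈ Icc 1 H, fh h u = cl H u := by
  induction H with
  | zero => simp [cl]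
  | succ H ih =>
    rw [sum_Icc_succ_top (by omega), ih]
    unfold fh cl
    push_cast
    split_ifs <;> omega

lemma sum_fh_mul (H : ℕ) (u v : ℤ) :
    2 * ∑ h ∈ Icc 1 H, fh h u * fh h v = |cl H u + cl H v| - |cl H u - cl H v| := by
  induction H with
  | zero => simp [cl]
  | succ H ih =>
    rw [sum_Icc_succ_top (by omega), mul_add, ih]
    unfold fh cl
    push_cast
    rw [abs_eq_max_neg, abs_eq_max_neg, abs_eq_max_neg, abs_eq_max_neg]
    split_ifs <;> omega

lemma cl_of_abs_le {H : ℕ} {u : ℤ} (h : |u| ≤ H) : cl H u = u := by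
  rw [abs_le] at h
  unfold cl
  omega

/-- the kernel `|u + v| - |u - v|` is positive, also with the point `H` of weight `y / 2` -/
lemma psd (H : ℕ) (S : Finset ℕ) (u : ℕ → ℤ) (hu : ∀ p ∈ S, |u p| ≤ H) (y : ℤ) :
    0 ≤ 2 * ∑ p ∈ S, ∑ q ∈ S, (|u p + u q| - |u p - u q|) + 4 * y * ∑ p ∈ S, u p + H * y ^ 2 := by
  have h1 : ∑ p ∈ S, ∑ q ∈ S, (|u p + u q| - |u p - u q|) = 2 * ∑ h ∈ Icc 1 H, (∑ p ∈ S, fh h (u p)) ^ 2 := by
    have : ∀ p ∈ S, ∀ q ∈ S, |u p + u q| - |u p - u q| = 2 * ∑ h ∈ Icc 1 H, fh h (u p) * fh h (u q) := by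
      intro p hp q hq
      rw [sum_fh_mul, cl_of_abs_le (hu p hp), cl_of_abs_le (hu q hq)]
    rw [sum_congr rfl fun p hp => sum_congr rfl fun q hq => this p hp q hq]
    have h0 : ∑ h ∈ Icc 1 H, (∑ p ∈ S, fh h (u p)) ^ 2 =
        ∑ p ∈ S, ∑ q ∈ S, ∑ h ∈ Icc 1 H, fh h (u p) * fh h (u q) := by
      simp only [pow_two, sum_mul_sum]
      rw [sum_comm]
      apply sum_congr rfl
      intro p _
      rw [sum_comm]
    rw [h0]
    simp only [← mul_sum]
  have h2 : ∑ p ∈ S, u p = ∑ h ∈ Icc 1 H, ∑ p ∈ S, fh h (u p) := by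
    rw [sum_comm]
    apply sum_congr rfl
    intro p hp
    rw [sum_fh, cl_of_abs_le (hu p hp)]
  have h3 : (H : ℤ) * y ^ 2 = ∑ h ∈ Icc 1 H, y ^ 2 := by
    rw [sum_const, Nat.card_Icc, nsmul_eq_mul]
    congr 1
  rw [h1, h2, h3, ← mul_assoc, mul_sum, mul_sum, ← sum_add_distrib, ← sum_add_distrib]
  apply sum_nonneg
  intro h _
  have : 2 * 2 * (∑ p ∈ S, fh h (u p)) ^ 2 + 4 * y * ∑ p ∈ S, fh h (u p) + y ^ 2 =
      (2 * ∑ p ∈ S, fh h (u p) + y) ^ 2 := by ring
  rw [this]
  positivity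

end Pool.Agent.Q277.RB
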