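import Pool.Agent.Q277.RB.Del
import Pool.Agent.Q277.RB.Cut
import Pool.Agent.Q277.RB.Ker

/-!
# Counting the triples which violate the triangle inequality
-/

set_option autoImplicit false

namespace Pool.Agent.Q277.RB

open Finset

/-- The number of the triples whose first element exceeds the sum of the other two. -/
def bad (P Q R : Finset ℕ) : ℕ := ∑ p ∈ P, ∑ q ∈ Q, ∑ r ∈ R, if q + r < p then 1 else 0

lemma G_add_bad (P Q R : Finset ℕ) :
    P.card * Q.card * R.card ≤ G P Q R + bad P Q R + bad Q P R + bad R P Q := by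
  have h1 : P.card * Q.card * R.card = ∑ p ∈ P, ∑ q ∈ Q, ∑ r ∈ R, 1 := by
    simp [mul_assoc]
  have h2 : bad Q P R = ∑ p ∈ P, ∑ q ∈ Q, ∑ r ∈ R, if p + r < q then 1 else 0 := by
    unfold bad
    rw [sum_comm]
  have h3 : bad R P Q = ∑ p ∈ P, ∑ q ∈ Q, ∑ r ∈ R, if p + q < r then 1 else 0 := by
    unfold bad
    rw [sum_comm]
    apply sum_congr rfl
    intro p _
    rw [sum_comm]
  rw [h1, h2, h3, G_sum]
  unfold bad
  simp only [← sum_add_distrib]
  apply sum_le_sum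
  intro p _
  apply sum_le_sum
  intro q _
  apply sum_le_sum
  intro r _
  by_cases h1 : Tri p q r
  · rw [if_pos h1]
    omega
  · rw [if_neg h1]
    unfold Tri at h1
    split_ifs <;> omega

lemma cut_bad {a : ℕ} {P Q R : Finset ℕ} (hQ : ∀ t ∈ Q, a < t) (hR : ∀ t ∈ R, a < t) (hd : ∀ t ∈ Q, t ∉ R) :
    6 * bad P Q R ≤ ∑ p ∈ P, (p - 2 * a) ^ 2 := by
  unfold bad
  rw [mul_sum]
  apply sum_le_sum
  intro p _
  have h1 : ∑ q ∈ Q, ∑ r ∈ R, (if q + r < p then 1 else 0) =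
      ((Q ×ˢ R).filter fun t => t.1 + t.2 < p).card := by
    rw [card_filter, sum_product]
  have h2 : ((Q ×ˢ R).filter fun t => t.1 + t.2 < p).card ≤
      ((Q ×ˢ R).filter fun t => t.1 + t.2 ≤ 2 * a + (p - 2 * a)).card := by
    apply card_le_card
    intro t ht
    rw [mem_filter] at ht ⊢
    refine ⟨ht.1, ?_⟩
    omega
  rw [h1]
  exact (Nat.mul_le_mul_left 6 h2).trans (cut Q R a (p - 2 * a) hQ hR hd)

lemma bad_le {N : ℕ} {P Q R : Finset ℕ} (hQ : ∀ t ∈ Q, t ≤ N) :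
    bad Q P R ≤ ∑ p ∈ P, ∑ r ∈ R, (N - (p + r)) := by
  have h2 : bad Q P R = ∑ p ∈ P, ∑ r ∈ R, ∑ q ∈ Q, if p + r < q then 1 else 0 := by
    unfold bad
    rw [sum_comm]
    apply sum_congr rfl
    intro p _
    rw [sum_comm]
  rw [h2]
  apply sum_le_sum
  intro p _
  apply sum_le_sum
  intro r _
  rw [← card_filter]
  have : (Q.filter fun q => p + r < q) ⊆ Ioc (p + r) N := by
    intro q hq
    rw [mem_filter] at hq
    rw [mem_Ioc]
    exact ⟨hq.2, hQ q hq.1⟩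
  refine (card_le_card this).trans ?_
  rw [Nat.card_Ioc]

/-- `3 a - p - z`, if positive -/
def ex (a p z : ℕ) : ℤ := max 0 (3 * (a : ℤ) - p - z)

lemma ex_eq (a p z : ℕ) : ((3 * a - (p + z) : ℕ) : ℤ) = ex a p z := by
  unfold ex
  omega

/-- the sum over the interval `(a, 3 a]` -/
lemma sum_ex (a p : ℕ) : 2 * ∑ z ∈ Icc (a + 1) (3 * a), ex a p z ≤ (max 0 (2 * (a : ℤ) - p)) ^ 2 := by
  have h1 : ∑ z ∈ Icc (a + 1) (3 * a), ex a p z = sm (2 * a - p) (2 * a) := by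
    unfold sm
    apply Finset.sum_nbij' (fun z => z - a) (fun j => a + j)
    · intro z hz
      rw [mem_Icc] at hz ⊢
      omega
    · intro j hj
      rw [mem_Icc] at hj ⊢
      omega
    · intro z hz
      rw [mem_Icc] at hz
      omega
    · intro j hj
      rw [mem_Icc] at hj
      omega
    · intro z hz
      rw [mem_Icc] at hz
      unfold ex
      omega
  have h2 := sm_eq (2 * a - p) (2 * a)
  have h3 := th_nonneg (((2 * a - p : ℕ) : ℤ) - 1 - (2 * a : ℕ))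
  have h4 : ((2 * a - p : ℕ) : ℤ) = max 0 (2 * (a : ℤ) - p) := by omega
  rw [h4] at h2 h3
  have h5 : (0 : ℤ) ≤ max 0 (2 * (a : ℤ) - p) := le_max_left _ _
  rw [h1]
  linarith

/-- A partition of the interval `(a, 3 a]`. -/
structure PartJ (a : ℕ) (Y B C : Finset ℕ) : Prop where
  cov : ∀ t, (t ∈ Y ∨ t ∈ B ∨ t ∈ C) ↔ (a + 1 ≤ t ∧ t ≤ 3 * a)
  yb : ∀ t ∈ Y, t ∉ B
  yc : ∀ t ∈ Y, t ∉ C
  bc : ∀ t ∈ B, t ∉ C

namespace PartJ

variable {a : ℕ} {Y B C : Finset ℕ}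

lemma dYB (h : PartJ a Y B C) : Disjoint Y B := disjoint_left.2 h.yb
lemma dYC (h : PartJ a Y B C) : Disjoint Y C := disjoint_left.2 h.yc
lemma dBC (h : PartJ a Y B C) : Disjoint B C := disjoint_left.2 h.bc

lemma union (h : PartJ a Y B C) : Y ∪ (B ∪ C) = Icc (a + 1) (3 * a) := by
  ext t
  rw [mem_union, mem_union, mem_Icc, ← h.cov t]

lemma dYBC (h : PartJ a Y B C) : Disjoint Y (B ∪ C) := by
  rw [disjoint_union_right]
  exact ⟨h.dYB, h.dYC⟩

lemma card (h : PartJ a Y B C) : Y.card + (B.card + C.card) = 2 * a := by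
  rw [← card_union_of_disjoint h.dBC, ← card_union_of_disjoint h.dYBC, h.union, Nat.card_Icc]
  omega

lemma gtY (h : PartJ a Y B C) : ∀ t ∈ Y, a < t := fun t ht => ((h.cov t).1 (Or.inl ht)).1
lemma gtB (h : PartJ a Y B C) : ∀ t ∈ B, a < t := fun t ht => ((h.cov t).1 (Or.inr (Or.inl ht))).1
lemma gtC (h : PartJ a Y B C) : ∀ t ∈ C, a < t := fun t ht => ((h.cov t).1 (Or.inr (Or.inr ht))).1
lemma leY (h : PartJ a Y B C) : ∀ t ∈ Y, t ≤ 3 * a := fun t ht => ((h.cov t).1 (Or.inl ht)).2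
lemma leB (h : PartJ a Y B C) : ∀ t ∈ B, t ≤ 3 * a := fun t ht => ((h.cov t).1 (Or.inr (Or.inl ht))).2
lemma leC (h : PartJ a Y B C) : ∀ t ∈ C, t ≤ 3 * a := fun t ht => ((h.cov t).1 (Or.inr (Or.inr ht))).2

end PartJ

lemma sum_sq (n : ℕ) : 6 * ∑ j ∈ range (n + 1), j ^ 2 = n * (n + 1) * (2 * n + 1) := by
  induction n with
  | zero => simp
  | succ n ih =>
    rw [sum_range_succ, mul_add, ih]
    ring

/-- **The case of many elements of the first class in `(a, 3 a]`.** -/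
lemma core2 {a k m : ℕ} {Y B C : Finset ℕ} (h : PartJ a Y B C) (hk : Y.card = k) (hm : m + k = a)
    (hbc : a * m ≤ B.card * C.card) (h3 : a ≤ 3 * k) (h3' : a ≤ 3 * m) : a ^ 3 ≤ 6 * G Y B C + a ^ 2 := by
  have h1 := G_add_bad Y B C
  have e1 := cut_bad (P := Y) h.gtB h.gtC h.bc
  have e2 := cut_bad (P := B) h.gtY h.gtC h.yc
  have e3 := cut_bad (P := C) h.gtY h.gtB h.yb
  have e4 : ∑ p ∈ Y, (p - 2 * a) ^ 2 + (∑ p ∈ B, (p - 2 * a) ^ 2 + ∑ p ∈ C, (p - 2 * a) ^ 2) =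
      ∑ p ∈ Icc (a + 1) (3 * a), (p - 2 * a) ^ 2 := by
    rw [← sum_union h.dBC, ← sum_union h.dYBC, h.union]
  have e5 : ∑ p ∈ Icc (a + 1) (3 * a), (p - 2 * a) ^ 2 ≤ ∑ j ∈ range (a + 1), j ^ 2 := by
    have : ∑ p ∈ Icc (a + 1) (3 * a), (p - 2 * a) ^ 2 = ∑ p ∈ Icc (2 * a + 1) (3 * a), (p - 2 * a) ^ 2 := by
      symm
      apply sum_subset
      · intro p hp
        rw [mem_Icc] at hp ⊢
        omega
      · intro p hp hp'
        rw [mem_Icc] at hp hp'
        rw [Nat.sub_eq_zero_of_le (by omega)]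
        norm_num
    rw [this]
    apply le_of_eq_of_le (b := ∑ j ∈ Icc 1 a, j ^ 2)
    · apply Finset.sum_nbij' (fun p => p - 2 * a) (fun j => 2 * a + j)
      · intro p hp
        rw [mem_Icc] at hp ⊢
        omega
      · intro p hp
        rw [mem_Icc] at hp ⊢
        omega
      · intro p hp
        rw [mem_Icc] at hp
        omega
      · intro p hp
        rw [mem_Icc] at hp
        omega
      · intro p _
        rfl
    · apply sum_le_sum_of_subset
      intro j hj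
      rw [mem_Icc] at hj
      rw [mem_range]
      omega
  have e6 := sum_sq a
  have e7 : 2 * a ^ 2 ≤ 9 * (m * k) := by
    subst hm
    nlinarith [mul_le_mul h3 h3' (Nat.zero_le _) (Nat.zero_le _)]
  have e8 : k * (a * m) ≤ Y.card * B.card * C.card := by
    rw [hk, mul_assoc]
    exact Nat.mul_le_mul_left k hbc
  have e9 : a * (2 * a ^ 2) ≤ a * (9 * (m * k)) := Nat.mul_le_mul_left a e7
  have e10 : a ≤ a ^ 2 := by nlinarith [Nat.zero_le a, Nat.le_self_pow (n := 2) (by norm_num) a]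
  nlinarith

end Pool.Agent.Q277.RB
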