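import Pool.Agent.Q277.RB.Core

/-!
# Three classes of the same size
-/

set_option autoImplicit false

namespace Pool.Agent.Q277.RB

open Finset

lemma G_mono_right {A B C B' C' : Finset ℕ} (hB : B' ⊆ B) (hC : C' ⊆ C) : G A B' C' ≤ G A B C := by
  unfold G
  apply card_le_card
  intro t ht
  rw [mem_filter, mem_product, mem_product] at ht ⊢
  exact ⟨⟨ht.1.1, hB ht.1.2.1, hC ht.1.2.2⟩, ht.2⟩

lemma G_split (A B C : Finset ℕ) (P : ℕ → Prop) [DecidablePred P] :
    G A B C = G (A.filter P) B C + G (A.filter fun t => ¬ P t) B C := by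
  rw [G_sum, G_sum, G_sum]
  exact (sum_filter_add_sum_filter_not A P _).symm

/-- small sides -/
lemma G_small {a m : ℕ} {A B C : Finset ℕ} (hA : ∀ t ∈ A, 1 ≤ t ∧ t ≤ a) (hm : A.card = m)
    (hB : ∀ t ∈ B, a < t) (hC : ∀ t ∈ C, a < t) : K m B C ≤ G A B C := by
  have h1 : G A B C = ∑ q ∈ B, ∑ r ∈ C, ∑ p ∈ A, if Tri p q r then 1 else 0 := by
    rw [G_sum, sum_comm]
    apply sum_congr rfl
    intro q _
    rw [sum_comm]
  rw [h1]
  unfold K
  rw [Nat.cast_sum]
  apply sum_le_sum
  intro q hq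
  rw [Nat.cast_sum]
  apply sum_le_sum
  intro r hr
  have hq' := hB q hq
  have hr' := hC r hr
  rw [← card_filter]
  unfold ker
  apply max_le (Int.natCast_nonneg _)
  obtain ⟨d, hd⟩ : ∃ d : ℕ, (d : ℤ) = |(q : ℤ) - r| := ⟨((q : ℤ) - r).natAbs, by simp⟩
  rw [← hd]
  have h2 : A.filter (fun p => ¬ d ≤ p) ⊆ Ico 1 d := by
    intro p hp
    rw [mem_filter] at hp
    rw [mem_Ico]
    have := hA p hp.1
    omega
  have h3 := card_le_card h2
  rw [Nat.card_Ico] at h3
  have h4 : A.filter (fun p => d ≤ p) ⊆ A.filter (fun p => Tri p q r) := by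
    intro p hp
    rw [mem_filter] at hp ⊢
    have := hA p hp.1
    refine ⟨hp.1, ?_⟩
    have h5 : (q : ℤ) - r ≤ d := by
      rw [hd]
      exact le_abs_self _
    have h6 : (r : ℤ) - q ≤ d := by
      rw [hd, abs_sub_comm]
      exact le_abs_self _
    unfold Tri
    omega
  have h5 := card_le_card h4
  have h6 : (A.filter (fun p => d ≤ p)).card + (A.filter (fun p => ¬ d ≤ p)).card = A.card :=
    card_filter_add_card_filter_not (s := A) (fun p => d ≤ p)
  omega

/-- the balanced case, the first class has the largest share of `[1, a]` -/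
lemma balanced1 {a : ℕ} {A B C : Finset ℕ} (h : Part (3 * a) A B C) (hA : A.card = a) (hB : B.card = a)
    (hC : C.card = a) (h3 : a ≤ 3 * (A.filter fun t => t ≤ a).card) :
    4 * (a : ℤ) ^ 3 ≤ 24 * (G A B C : ℤ) + 9 * (a : ℤ) ^ 2 := by
  set A1 := A.filter (fun t => t ≤ a) with hA1
  set B1 := B.filter (fun t => t ≤ a) with hB1
  set C1 := C.filter (fun t => t ≤ a) with hC1
  set Y := A.filter (fun t => ¬ t ≤ a) with hY
  set B' := B.filter (fun t => ¬ t ≤ a) with hB'
  set C' := C.filter (fun t => ¬ t ≤ a) with hC'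
  have cA : A1.card + Y.card = a :=
    (card_filter_add_card_filter_not (s := A) (fun t => t ≤ a)).trans hA
  have cB : B1.card + B'.card = a :=
    (card_filter_add_card_filter_not (s := B) (fun t => t ≤ a)).trans hB
  have cC : C1.card + C'.card = a :=
    (card_filter_add_card_filter_not (s := C) (fun t => t ≤ a)).trans hC
  have hP : Part a A1 B1 C1 := by
    refine ⟨?_, ?_, ?_, ?_⟩
    · intro t
      have := h.cov t
      rw [hA1, hB1, hC1, mem_filter, mem_filter, mem_filter]
      constructor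
      · rintro (h1 | h1 | h1)
        · exact ⟨(this.1 (Or.inl h1.1)).1, h1.2⟩
        · exact ⟨(this.1 (Or.inr (Or.inl h1.1))).1, h1.2⟩
        · exact ⟨(this.1 (Or.inr (Or.inr h1.1))).1, h1.2⟩
      · rintro ⟨h1, h2⟩
        rcases this.2 ⟨h1, by omega⟩ with h4 | h4 | h4
        · exact Or.inl ⟨h4, h2⟩
        · exact Or.inr (Or.inl ⟨h4, h2⟩)
        · exact Or.inr (Or.inr ⟨h4, h2⟩)
    · intro t h1 h2
      exact h.ab t (mem_filter.1 h1).1 (mem_filter.1 h2).1
    · intro t h1 h2
      exact h.ac t (mem_filter.1 h1).1 (mem_filter.1 h2).1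
    · intro t h1 h2
      exact h.bc t (mem_filter.1 h1).1 (mem_filter.1 h2).1
  have hPJ : PartJ a Y B' C' := by
    refine ⟨?_, ?_, ?_, ?_⟩
    · intro t
      have := h.cov t
      rw [hY, hB', hC', mem_filter, mem_filter, mem_filter]
      constructor
      · rintro (h1 | h1 | h1)
        · exact ⟨by omega, (this.1 (Or.inl h1.1)).2⟩
        · exact ⟨by omega, (this.1 (Or.inr (Or.inl h1.1))).2⟩
        · exact ⟨by omega, (this.1 (Or.inr (Or.inr h1.1))).2⟩
      · rintro ⟨h1, h2⟩
        rcases this.2 ⟨by omega, by omega⟩ with h4 | h4 | h4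
        · exact Or.inl ⟨h4, by omega⟩
        · exact Or.inr (Or.inl ⟨h4, by omega⟩)
        · exact Or.inr (Or.inr ⟨h4, by omega⟩)
    · intro t h1 h2
      exact h.ab t (mem_filter.1 h1).1 (mem_filter.1 h2).1
    · intro t h1 h2
      exact h.ac t (mem_filter.1 h1).1 (mem_filter.1 h2).1
    · intro t h1 h2
      exact h.bc t (mem_filter.1 h1).1 (mem_filter.1 h2).1
  have cP := hP.card
  obtain ⟨m, hm⟩ : ∃ m, m = A1.card := ⟨_, rfl⟩
  obtain ⟨k, hk⟩ : ∃ k, k = Y.card := ⟨_, rfl⟩
  rw [← hm] at cA cP h3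
  rw [← hk] at cA
  have e1 : K m B' C' ≤ G A1 B' C' := by
    apply G_small (a := a) _ hm.symm hPJ.gtB hPJ.gtC
    intro t ht
    exact (hP.cov t).1 (Or.inl ht)
  have e2 : G A1 B' C' + G Y B' C' ≤ G A B C := by
    rw [G_split A B C (fun t => t ≤ a)]
    exact Nat.add_le_add (G_mono_right (filter_subset _ _) (filter_subset _ _))
      (G_mono_right (filter_subset _ _) (filter_subset _ _))
  have e2' : (G A1 B' C' : ℤ) + G Y B' C' ≤ G A B C := by exact_mod_cast e2
  have hbc : a * m ≤ B'.card * C'.card := by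
    have z1 : (B'.card : ℤ) = a - B1.card := by omega
    have z2 : (C'.card : ℤ) = a - C1.card := by omega
    have z3 : (m : ℤ) = a - B1.card - C1.card := by omega
    have : (a : ℤ) * m ≤ B'.card * C'.card := by
      rw [z1, z2, z3]
      have : (0 : ℤ) ≤ (B1.card : ℤ) * C1.card := by positivity
      nlinarith
    exact_mod_cast this
  rcases le_total (3 * k) a with h4 | h4
  · have := core1 hPJ hk.symm cA (by omega) (by omega) hbc h4
    linarith
  · have := core2 hPJ hk.symm cA hbc h4 h3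
    have z : (a : ℤ) ^ 3 ≤ 6 * (G Y B' C' : ℤ) + (a : ℤ) ^ 2 := by exact_mod_cast this
    have z2 : (0 : ℤ) ≤ (a : ℤ) ^ 2 := sq_nonneg _
    have z3 : (0 : ℤ) ≤ (G A1 B' C' : ℤ) := Int.natCast_nonneg _
    linarith

/-- **The balanced case**: at least `a ^ 3 / 6 - 3 a ^ 2 / 8` rainbow triangles. -/
lemma balanced {a : ℕ} {A B C : Finset ℕ} (h : Part (3 * a) A B C) (hA : A.card = a) (hB : B.card = a)
    (hC : C.card = a) : 4 * (a : ℤ) ^ 3 ≤ 24 * (G A B C : ℤ) + 9 * (a : ℤ) ^ 2 := by
  have key : (A.filter fun t => t ≤ a).card + (B.filter fun t => t ≤ a).card + (C.filter fun t => t ≤ a).card = a := by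
    rw [← card_union_of_disjoint, ← card_union_of_disjoint]
    · have : (A.filter fun t => t ≤ a) ∪ (B.filter fun t => t ≤ a) ∪ (C.filter fun t => t ≤ a) = Icc 1 a := by
        ext t
        simp only [mem_union, mem_filter, mem_Icc]
        have := h.cov t
        constructor
        · rintro ((h1 | h1) | h1)
          · exact ⟨(this.1 (Or.inl h1.1)).1, h1.2⟩
          · exact ⟨(this.1 (Or.inr (Or.inl h1.1))).1, h1.2⟩
          · exact ⟨(this.1 (Or.inr (Or.inr h1.1))).1, h1.2⟩
        · rintro ⟨h1, h2⟩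
          rcases this.2 ⟨h1, by omega⟩ with h4 | h4 | h4
          · exact Or.inl (Or.inl ⟨h4, h2⟩)
          · exact Or.inl (Or.inr ⟨h4, h2⟩)
          · exact Or.inr ⟨h4, h2⟩
      rw [this]
      simp
    · rw [disjoint_left]
      intro t h1 h2
      rw [mem_union, mem_filter, mem_filter] at h1
      rw [mem_filter] at h2
      rcases h1 with h1 | h1
      · exact h.ac t h1.1 h2.1
      · exact h.bc t h1.1 h2.1
    · rw [disjoint_left]
      intro t h1 h2
      rw [mem_filter] at h1 h2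
      exact h.ab t h1.1 h2.1
  by_cases h1 : a ≤ 3 * (A.filter fun t => t ≤ a).card
  · exact balanced1 h hA hB hC h1
  by_cases h2 : a ≤ 3 * (B.filter fun t => t ≤ a).card
  · rw [G_swap1]
    exact balanced1 h.swap1 hB hA hC h2
  · rw [G_swap2, G_swap1]
    exact balanced1 h.swap2.swap1 hC hA hB (by omega)

end Pool.Agent.Q277.RB
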