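import Pool.Agent.Q277.RB.Bad

/-!
# The main estimate
-/

set_option autoImplicit false

namespace Pool.Agent.Q277.RB

open Finset

lemma K_bilin {a : ℕ} (m : ℕ) {Y B C : Finset ℕ} (h : PartJ a Y B C) :
    2 * K m B C = K m (Icc (a + 1) (3 * a)) (Icc (a + 1) (3 * a)) - K m B B - K m C C -
      2 * K m Y (Icc (a + 1) (3 * a)) + K m Y Y := by
  rw [← h.union, K_union_left m _ h.dYBC, K_union_left m _ h.dBC, K_union_right m _ h.dYBC,
    K_union_right m _ h.dYBC, K_union_right m _ h.dYBC, K_union_right m _ h.dBC, K_union_right m _ h.dBC,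
    K_union_right m _ h.dBC, K_comm m B Y, K_comm m C Y, K_comm m C B]
  ring

lemma K_J {a m : ℕ} (hm : m ≤ 2 * a) :
    3 * K m (Icc (a + 1) (3 * a)) (Icc (a + 1) (3 * a)) = 6 * a * (m : ℤ) ^ 2 - ((m : ℤ) ^ 3 - m) := by
  have h1 := K_Icc m a (2 * a)
  have h2 : a + 2 * a = 3 * a := by ring
  rw [h2] at h1
  have h3 := Th_of_le hm
  rw [h1]
  push_cast
  linarith

/-- the row sums of the kernel, in the first half -/
lemma row2 {a m p : ℕ} (h1 : a < p) (h2 : p ≤ 2 * a) :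
    2 * ∑ z ∈ Icc (a + 1) (3 * a), ker m p z ≤ 2 * (m : ℤ) ^ 2 - (max 0 ((m : ℤ) + a - p)) ^ 2 := by
  rw [sum_Icc_ker m p (a + 1) (3 * a) h1 (by omega)]
  have h3 := th_nonneg ((m : ℤ) - 1 - (3 * a - p : ℕ))
  have h4 : (m : ℤ) - 1 - (p - (a + 1) : ℕ) = m + a - p := by omega
  rw [h4]
  have h5 : (max 0 ((m : ℤ) + a - p)) ^ 2 ≤ th ((m : ℤ) + a - p) := by
    unfold th
    rw [max_comm 0]
    have := le_max_right ((m : ℤ) + a - p) 0
    nlinarith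
  linarith

/-- the row sums of the kernel, in the second half -/
lemma row3 {a k m p : ℕ} (hm : m + k = a) (h1 : 2 * a < p) (h2 : p ≤ 3 * a) :
    2 * ∑ z ∈ Icc (a + 1) (3 * a), ker m p z ≤ 2 * (m : ℤ) ^ 2 - (max 0 ((p : ℤ) - 2 * a - k)) ^ 2 + a := by
  rw [sum_Icc_ker m p (a + 1) (3 * a) (by omega) h2]
  have h3 := th_nonneg ((m : ℤ) - 1 - (p - (a + 1) : ℕ))
  have h4 : (m : ℤ) - 1 - (3 * a - p : ℕ) = ((p : ℤ) - 2 * a - k) - 1 := by omega
  rw [h4]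
  have h5 : (max 0 ((p : ℤ) - 2 * a - k)) ^ 2 - a ≤ th (((p : ℤ) - 2 * a - k) - 1) := by
    have h6 : ((p : ℤ) - 2 * a - k) ≤ a := by omega
    unfold th
    obtain ⟨j, hj⟩ : ∃ j : ℤ, j = (p : ℤ) - 2 * a - k := ⟨_, rfl⟩
    rw [← hj] at h6 ⊢
    rcases le_or_gt j 0 with h | h
    · rw [max_eq_left h, max_eq_right (by omega)]
      nlinarith
    · rw [max_eq_right h.le, max_eq_left (by omega)]
      nlinarith
  linarith

lemma key2 {a k m : ℕ} (hm : m + k = a) (p : ℤ) :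
    -2 * (k : ℤ) * (a - (p - a)) + (k : ℤ) ^ 2 - (max 0 (p - a - m)) ^ 2 ≤
      (max 0 ((m : ℤ) + a - p)) ^ 2 - (2 * (a : ℤ) - p) ^ 2 := by
  have hm' : (a : ℤ) = m + k := by exact_mod_cast hm.symm
  rcases le_total (p - a - m) 0 with h | h
  · rw [max_eq_left h, max_eq_right (by omega), hm']
    apply le_of_eq
    ring
  · rw [max_eq_right h, max_eq_left (by omega), hm']
    apply le_of_eq
    ring

lemma key3 (k v : ℤ) (hv : 0 ≤ v) : -6 * k ^ 2 ≤ 12 * (max 0 (v - k)) ^ 2 - 4 * v ^ 2 := by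
  rcases le_total (v - k) 0 with h | h
  · rw [max_eq_left h]
    nlinarith
  · rw [max_eq_right h]
    nlinarith [sq_nonneg (2 * v - 3 * k)]

lemma sum_gamma {a k m : ℕ} (hm : m + k = a) (S : Finset ℕ) (hS : ∀ p ∈ S, a < p ∧ p ≤ 2 * a) :
    6 * ∑ p ∈ S, (max 0 ((p : ℤ) - a - m)) ^ 2 ≤ 2 * (k : ℤ) ^ 3 + 4 * (k : ℤ) ^ 2 := by
  have h1 : ∑ p ∈ S, (max 0 ((p : ℤ) - a - m)) ^ 2 ≤ ∑ j ∈ range (k + 1), (j : ℤ) ^ 2 := by
    have h2 : ∑ p ∈ S, (max 0 ((p : ℤ) - a - m)) ^ 2 ≤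
        ∑ p ∈ Icc (a + m) (2 * a), (max 0 ((p : ℤ) - a - m)) ^ 2 := by
      rw [← sum_filter_add_sum_filter_not S (fun p => a + m ≤ p)]
      have h3 : ∑ p ∈ S.filter (fun p => ¬ a + m ≤ p), (max 0 ((p : ℤ) - a - m)) ^ 2 = 0 := by
        apply sum_eq_zero
        intro p hp
        rw [mem_filter] at hp
        rw [max_eq_left (by omega)]
        norm_num
      rw [h3, add_zero]
      apply sum_le_sum_of_subset_of_nonneg
      · intro p hp
        rw [mem_filter] at hp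
        rw [mem_Icc]
        exact ⟨hp.2, (hS p hp.1).2⟩
      · intro p _ _
        positivity
    refine h2.trans (le_of_eq ?_)
    apply Finset.sum_nbij' (fun p => p - (a + m)) (fun j => a + m + j)
    · intro p hp
      rw [mem_Icc] at hp
      rw [mem_range]
      omega
    · intro p hp
      rw [mem_range] at hp
      rw [mem_Icc]
      omega
    · intro p hp
      rw [mem_Icc] at hp
      omega
    · intro p hp
      rw [mem_range] at hp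
      omega
    · intro p hp
      rw [mem_Icc] at hp
      rw [max_eq_right (by omega)]
      congr 1
      omega
  have h2 : (6 : ℤ) * ∑ j ∈ range (k + 1), (j : ℤ) ^ 2 = k * (k + 1) * (2 * k + 1) := by
    exact_mod_cast sum_sq k
  have h3 : (k : ℤ) ≤ (k : ℤ) ^ 2 := by
    exact_mod_cast Nat.le_self_pow (n := 2) (by norm_num) k
  nlinarith

/-- **The case of few elements of the first class in `(a, 3 a]`.** -/
lemma core1 {a k m : ℕ} {Y B C : Finset ℕ} (h : PartJ a Y B C) (hk : Y.card = k) (hm : m + k = a)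
    (hb : m ≤ B.card) (hc : m ≤ C.card) (hbc : a * m ≤ B.card * C.card) (h3 : 3 * k ≤ a) :
    4 * (a : ℤ) ^ 3 ≤ 24 * (K m B C + G Y B C) + 9 * (a : ℤ) ^ 2 := by
  set J := Icc (a + 1) (3 * a) with hJ
  set Y2 := Y.filter (fun p => p ≤ 2 * a) with hY2
  set Y3 := Y.filter (fun p => ¬ p ≤ 2 * a) with hY3
  have m2 : ∀ p ∈ Y2, a < p ∧ p ≤ 2 * a := by
    intro p hp
    rw [hY2, mem_filter] at hp
    exact ⟨h.gtY p hp.1, hp.2⟩
  have m3 : ∀ p ∈ Y3, 2 * a < p ∧ p ≤ 3 * a := by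
    intro p hp
    rw [hY3, mem_filter] at hp
    exact ⟨by omega, h.leY p hp.1⟩
  have split : ∀ f : ℕ → ℤ, ∑ p ∈ Y, f p = ∑ p ∈ Y2, f p + ∑ p ∈ Y3, f p := fun f =>
    (sum_filter_add_sum_filter_not Y (fun p => p ≤ 2 * a) f).symm
  obtain ⟨x, hx⟩ : ∃ x, x = Y2.card := ⟨_, rfl⟩
  obtain ⟨y, hy⟩ : ∃ y, y = Y3.card := ⟨_, rfl⟩
  have hxy : x + y = k := by
    rw [hx, hy, ← hk]
    exact card_filter_add_card_filter_not (s := Y) (fun p => p ≤ 2 * a)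
  -- the sums
  set SA := ∑ p ∈ Y2, (max 0 ((m : ℤ) + a - p)) ^ 2 with hSA
  set SD := ∑ p ∈ Y2, (2 * (a : ℤ) - p) ^ 2 with hSD
  set Sg := ∑ p ∈ Y2, (max 0 ((p : ℤ) - a - m)) ^ 2 with hSg
  set τ := ∑ p ∈ Y2, ((p : ℤ) - a) with hτ
  set Sb := ∑ p ∈ Y3, (max 0 ((p : ℤ) - 2 * a - k)) ^ 2 with hSb
  set S4 := ∑ p ∈ Y3, ((p : ℤ) - 2 * a) ^ 2 with hS4
  set SP := ∑ p ∈ Y2, ∑ q ∈ Y2, ((m : ℤ) - |(p : ℤ) - q|) with hSP
  set SE := ∑ p ∈ Y2, ∑ q ∈ Y2, ex a p q with hSE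
  set Q2 := ∑ p ∈ Y2, ∑ q ∈ Y2, (|(2 * (p : ℤ) - 3 * a) + (2 * (q : ℤ) - 3 * a)| -
    |(2 * (p : ℤ) - 3 * a) - (2 * (q : ℤ) - 3 * a)|) with hQ2
  have i1 := K_bilin m h
  have i2 := K_J (a := a) (m := m) (by omega)
  have i3 := K_self_le' hb
  have i3' := K_self_le' hc
  rw [← hJ] at i1 i2
  have i4 : 2 * K m Y J ≤ 2 * k * (m : ℤ) ^ 2 - SA - Sb + a * y := by
    have e1 : 2 * K m Y J = ∑ p ∈ Y, 2 * ∑ z ∈ J, ker m p z := by
      unfold K
      rw [mul_sum]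
    rw [e1, split]
    have e2 : ∑ p ∈ Y2, 2 * ∑ z ∈ J, ker m p z ≤ ∑ p ∈ Y2, (2 * (m : ℤ) ^ 2 - (max 0 ((m : ℤ) + a - p)) ^ 2) :=
      sum_le_sum fun p hp => row2 (m2 p hp).1 (m2 p hp).2
    have e3 : ∑ p ∈ Y3, 2 * ∑ z ∈ J, ker m p z ≤
        ∑ p ∈ Y3, (2 * (m : ℤ) ^ 2 - (max 0 ((p : ℤ) - 2 * a - k)) ^ 2 + a) :=
      sum_le_sum fun p hp => row3 hm (m3 p hp).1 (m3 p hp).2
    rw [sum_sub_distrib, sum_const, ← hx, ← hSA, nsmul_eq_mul] at e2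
    rw [sum_add_distrib, sum_sub_distrib, sum_const, sum_const, ← hy, ← hSb, nsmul_eq_mul, nsmul_eq_mul] at e3
    have e4 : (k : ℤ) = x + y := by exact_mod_cast hxy.symm
    rw [e4]
    linarith
  have i5 : SP ≤ K m Y Y := by
    have e1 : SP ≤ K m Y2 Y2 := by
      rw [hSP]
      unfold K ker
      exact sum_le_sum fun p _ => sum_le_sum fun q _ => le_max_right _ _
    have e2 : K m Y2 Y2 ≤ K m Y Y := by
      unfold K
      calc ∑ p ∈ Y2, ∑ q ∈ Y2, ker m p q ≤ ∑ p ∈ Y2, ∑ q ∈ Y, ker m p q :=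
            sum_le_sum fun p _ => sum_le_sum_of_subset_of_nonneg (filter_subset _ _) fun q _ _ => ker_nonneg m p q
        _ ≤ ∑ p ∈ Y, ∑ q ∈ Y, ker m p q :=
            sum_le_sum_of_subset_of_nonneg (filter_subset _ _) fun p _ _ => sum_nonneg fun q _ => ker_nonneg m p q
    exact e1.trans e2
  have i6 : (k : ℤ) * (a * m) ≤ G Y B C + bad Y B C + bad B Y C + bad C Y B := by
    have e1 := G_add_bad Y B C
    have e2 : k * (a * m) ≤ Y.card * B.card * C.card := by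
      rw [hk, mul_assoc]
      exact Nat.mul_le_mul_left k hbc
    exact_mod_cast e2.trans e1
  have i7 : 6 * (bad Y B C : ℤ) ≤ S4 := by
    have e1 := cut_bad (P := Y) h.gtB h.gtC h.bc
    have e2 : (6 * (bad Y B C : ℤ)) ≤ ∑ p ∈ Y, ((p - 2 * a : ℕ) : ℤ) ^ 2 := by exact_mod_cast e1
    rw [split] at e2
    have e3 : ∑ p ∈ Y2, ((p - 2 * a : ℕ) : ℤ) ^ 2 = 0 := by
      apply sum_eq_zero
      intro p hp
      rw [Nat.sub_eq_zero_of_le (m2 p hp).2]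
      norm_num
    have e4 : ∑ p ∈ Y3, ((p - 2 * a : ℕ) : ℤ) ^ 2 = S4 := by
      rw [hS4]
      apply sum_congr rfl
      intro p hp
      rw [Nat.cast_sub (m3 p hp).1.le]
      push_cast
      rfl
    rw [e3, e4, zero_add] at e2
    exact e2
  have i8 : 2 * ((bad B Y C : ℤ) + bad C Y B) ≤ SD - 2 * SE := by
    have e1 := bad_le (P := Y) (R := C) h.leB
    have e2 := bad_le (P := Y) (R := B) h.leC
    have e3 : (bad B Y C : ℤ) ≤ ∑ p ∈ Y, ∑ z ∈ C, ex a p z := by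
      have : (bad B Y C : ℤ) ≤ ((∑ p ∈ Y, ∑ r ∈ C, (3 * a - (p + r)) : ℕ) : ℤ) := by exact_mod_cast e1
      refine this.trans (le_of_eq ?_)
      rw [Nat.cast_sum]
      apply sum_congr rfl
      intro p _
      rw [Nat.cast_sum]
      exact sum_congr rfl fun z _ => ex_eq a p z
    have e4 : (bad C Y B : ℤ) ≤ ∑ p ∈ Y, ∑ z ∈ B, ex a p z := by
      have : (bad C Y B : ℤ) ≤ ((∑ p ∈ Y, ∑ r ∈ B, (3 * a - (p + r)) : ℕ) : ℤ) := by exact_mod_cast e2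
      refine this.trans (le_of_eq ?_)
      rw [Nat.cast_sum]
      apply sum_congr rfl
      intro p _
      rw [Nat.cast_sum]
      exact sum_congr rfl fun z _ => ex_eq a p z
    have e5 : ∑ p ∈ Y, ∑ z ∈ J, ex a p z = ∑ p ∈ Y, ∑ z ∈ Y, ex a p z + (∑ p ∈ Y, ∑ z ∈ B, ex a p z +
        ∑ p ∈ Y, ∑ z ∈ C, ex a p z) := by
      rw [← sum_add_distrib, ← sum_add_distrib]
      apply sum_congr rfl
      intro p _
      rw [hJ, ← h.union, sum_union h.dYBC, sum_union h.dBC]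
    have e6 : 2 * ∑ p ∈ Y, ∑ z ∈ J, ex a p z ≤ SD := by
      rw [mul_sum, split]
      have e7 : ∑ p ∈ Y2, 2 * ∑ z ∈ J, ex a p z ≤ SD := by
        apply sum_le_sum
        intro p hp
        refine (sum_ex a p).trans (le_of_eq ?_)
        have := (m2 p hp).2
        rw [max_eq_right (by omega)]
      have e8 : ∑ p ∈ Y3, 2 * ∑ z ∈ J, ex a p z ≤ 0 := by
        apply sum_nonpos
        intro p hp
        refine (sum_ex a p).trans (le_of_eq ?_)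
        have := (m3 p hp).1
        rw [max_eq_left (by omega)]
        norm_num
      linarith
    have e9 : SE ≤ ∑ p ∈ Y, ∑ z ∈ Y, ex a p z := by
      have hn : ∀ p q, 0 ≤ ex a p q := fun p q => le_max_left _ _
      calc SE ≤ ∑ p ∈ Y2, ∑ q ∈ Y, ex a p q :=
            sum_le_sum fun p _ => sum_le_sum_of_subset_of_nonneg (filter_subset _ _) fun q _ _ => hn p q
        _ ≤ ∑ p ∈ Y, ∑ q ∈ Y, ex a p q :=
            sum_le_sum_of_subset_of_nonneg (filter_subset _ _) fun p _ _ => sum_nonneg fun q _ => hn p q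
    linarith
  have i9 : -2 * (k : ℤ) * (a * x - τ) + (k : ℤ) ^ 2 * x - Sg ≤ SA - SD := by
    have e1 : ∑ p ∈ Y2, (-2 * (k : ℤ) * (a - ((p : ℤ) - a)) + (k : ℤ) ^ 2 - (max 0 ((p : ℤ) - a - m)) ^ 2) ≤
        ∑ p ∈ Y2, ((max 0 ((m : ℤ) + a - p)) ^ 2 - (2 * (a : ℤ) - p) ^ 2) :=
      sum_le_sum fun p _ => key2 hm p
    rw [sum_sub_distrib, sum_sub_distrib, sum_add_distrib, ← mul_sum, sum_sub_distrib, sum_const, sum_const,
      ← hx, nsmul_eq_mul, nsmul_eq_mul, ← hτ, ← hSg, ← hSA, ← hSD] at e1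
    linarith
  have i10 := sum_gamma hm Y2 m2
  rw [← hSg] at i10
  have i11 : -6 * (k : ℤ) ^ 2 * y ≤ 12 * Sb - 4 * S4 := by
    have e1 : ∑ p ∈ Y3, (-6 * (k : ℤ) ^ 2) ≤
        ∑ p ∈ Y3, (12 * (max 0 ((p : ℤ) - 2 * a - k)) ^ 2 - 4 * ((p : ℤ) - 2 * a) ^ 2) :=
      sum_le_sum fun p hp => key3 k ((p : ℤ) - 2 * a) (by have := (m3 p hp).1; omega)
    rw [sum_const, sum_sub_distrib, ← mul_sum, ← mul_sum, ← hy, nsmul_eq_mul, ← hSb, ← hS4] at e1
    linarith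
  have i12 : 12 * SP + 24 * SE = 12 * m * (x : ℤ) ^ 2 + 12 * (a * (x : ℤ) ^ 2 - 2 * x * τ) + 6 * Q2 := by
    have e1 : ∀ p q : ℕ, 12 * ((m : ℤ) - |(p : ℤ) - q|) + 24 * ex a p q = 12 * m +
        12 * (a - (((p : ℤ) - a) + ((q : ℤ) - a))) + 6 * (|(2 * (p : ℤ) - 3 * a) + (2 * (q : ℤ) - 3 * a)| -
          |(2 * (p : ℤ) - 3 * a) - (2 * (q : ℤ) - 3 * a)|) := by
      intro p q
      unfold ex
      rw [abs_eq_max_neg, abs_eq_max_neg, abs_eq_max_neg]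
      omega
    have e2 : 12 * SP + 24 * SE = ∑ p ∈ Y2, ∑ q ∈ Y2, (12 * ((m : ℤ) - |(p : ℤ) - q|) + 24 * ex a p q) := by
      simp only [sum_add_distrib, ← mul_sum]
      rw [hSP, hSE]
    rw [e2, sum_congr rfl fun p _ => sum_congr rfl fun q _ => e1 p q]
    simp only [sum_add_distrib, ← mul_sum, sum_sub_distrib, sum_const, nsmul_eq_mul, ← hx]
    rw [hQ2]
    simp only [sum_sub_distrib]
    have e3 : τ = ∑ p ∈ Y2, (p : ℤ) - x * a := by
      rw [hτ, sum_sub_distrib, sum_const, ← hx, nsmul_eq_mul]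
    rw [e3]
    ring
  have i13 : 0 ≤ 2 * Q2 + 4 * y * (2 * τ - a * x) + a * (y : ℤ) ^ 2 := by
    have e1 := psd a Y2 (fun p => 2 * (p : ℤ) - 3 * a) (by
      intro p hp
      have := m2 p hp
      rw [abs_le]
      omega) y
    have e2 : ∑ p ∈ Y2, (2 * (p : ℤ) - 3 * a) = 2 * τ - a * x := by
      rw [hτ, sum_sub_distrib, sum_sub_distrib, ← mul_sum, sum_const, sum_const, ← hx, nsmul_eq_mul,
        nsmul_eq_mul]
      ring
    rw [e2] at e1
    exact e1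
  have i14 : (B.card : ℤ) + C.card = 2 * a - k := by
    have := h.card
    rw [hk] at this
    omega
  have i15 : (B.card : ℤ) * (m : ℤ) ^ 2 + C.card * (m : ℤ) ^ 2 = (2 * a - k) * (m : ℤ) ^ 2 := by
    rw [← i14]
    ring
  -- elimination
  have hk' : (k : ℤ) = x + y := by exact_mod_cast hxy.symm
  have hm' : (m : ℤ) = a - x - y := by
    have : (m : ℤ) + k = a := by exact_mod_cast hm
    rw [hk'] at this
    linarith
  have fin : 4 * (a : ℤ) ^ 3 + 9 * a * y ^ 2 + 12 * a * x * y + 12 * (a - x - y) * x ^ 2 - 8 * (x + y) ^ 3 -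
      18 * (x + y) ^ 2 * y - 4 * (a - x - y) - 8 * (x + y) ^ 2 - 12 * a * y ≤ 24 * (K m B C + G Y B C) := by
    rw [hm'] at i2 i3 i3' i4 i6 i12 i15
    rw [hk'] at i4 i6 i9 i10 i11 i15
    nlinarith
  have x0 : (0 : ℤ) ≤ x := Int.natCast_nonneg x
  have y0 : (0 : ℤ) ≤ y := Int.natCast_nonneg y
  obtain ⟨e, he⟩ : ∃ e : ℤ, (a : ℤ) = 3 * (x + y) + e := ⟨a - 3 * (x + y), by ring⟩
  have e0 : 0 ≤ e := by
    have : 3 * (k : ℤ) ≤ a := by exact_mod_cast h3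
    rw [hk'] at this
    linarith
  have c1 : 0 ≤ 9 * (a : ℤ) * y ^ 2 + 12 * a * x * y + 12 * (a - x - y) * x ^ 2 - 8 * (x + y) ^ 3 -
      18 * (x + y) ^ 2 * y := by
    have : 9 * (a : ℤ) * y ^ 2 + 12 * a * x * y + 12 * (a - x - y) * x ^ 2 - 8 * (x + y) ^ 3 -
      18 * (x + y) ^ 2 * y = (x + y) * (16 * x ^ 2 + 2 * x * y + y ^ 2) + e * (9 * y ^ 2 + 12 * x * y + 12 * x ^ 2) := by
      rw [he]
      ring
    rw [this]
    positivity
  have c2 : 0 ≤ 9 * (a : ℤ) ^ 2 - 4 * (a - x - y) - 8 * (x + y) ^ 2 - 12 * a * y := by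
    have a1 : (a : ℤ) ≤ (a : ℤ) ^ 2 := by
      exact_mod_cast Nat.le_self_pow (n := 2) (by norm_num) a
    have a2 : 3 * (y : ℤ) ≤ a := by linarith
    have a0 : (0 : ℤ) ≤ a := Int.natCast_nonneg a
    have a3 : (a : ℤ) * (3 * y) ≤ a * a := mul_le_mul_of_nonneg_left a2 a0
    have a4 : (3 * ((x : ℤ) + y)) * (3 * (x + y)) ≤ a * a :=
      mul_le_mul (by linarith) (by linarith) (by positivity) a0
    nlinarith
  linarith

end Pool.Agent.Q277.RB
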