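import Mathlib

/-!
# Rainbow triangles: deletion of the first element of a class
-/

set_option autoImplicit false

namespace Pool.Agent.Q277.RB

open Finset

/-- The triangle inequalities (degenerate triangles allowed). -/
def Tri (p q r : ℕ) : Prop := p ≤ q + r ∧ q ≤ p + r ∧ r ≤ p + q

instance (p q r : ℕ) : Decidable (Tri p q r) := by unfold Tri; infer_instance

/-- The number of the triangles with sides in `A`, `B`, `C`. -/
def G (A B C : Finset ℕ) : ℕ := ((A ×ˢ B ×ˢ C).filter fun t => Tri t.1 t.2.1 t.2.2).card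

lemma Tri_swap1 (p q r : ℕ) : Tri p q r ↔ Tri q p r := by unfold Tri; omega

lemma Tri_swap2 (p q r : ℕ) : Tri p q r ↔ Tri p r q := by unfold Tri; omega

lemma G_sum (A B C : Finset ℕ) :
    G A B C = ∑ p ∈ A, ∑ q ∈ B, ∑ r ∈ C, if Tri p q r then 1 else 0 := by
  unfold G
  rw [card_filter, sum_product]
  apply sum_congr rfl
  intro p _
  rw [sum_product]

lemma G_swap1 (A B C : Finset ℕ) : G A B C = G B A C := by
  rw [G_sum, G_sum, sum_comm]
  apply sum_congr rfl
  intro q _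
  apply sum_congr rfl
  intro p _
  apply sum_congr rfl
  intro r _
  simp only [Tri_swap1 p q r]

lemma G_swap2 (A B C : Finset ℕ) : G A B C = G A C B := by
  rw [G_sum, G_sum]
  apply sum_congr rfl
  intro p _
  rw [sum_comm]
  apply sum_congr rfl
  intro r _
  apply sum_congr rfl
  intro q _
  simp only [Tri_swap2 p q r]

/-- `A`, `B`, `C` is a partition of `[1, n]`. -/
structure Part (n : ℕ) (A B C : Finset ℕ) : Prop where
  cov : ∀ t, (t ∈ A ∨ t ∈ B ∨ t ∈ C) ↔ (1 ≤ t ∧ t ≤ n)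
  ab : ∀ t ∈ A, t ∉ B
  ac : ∀ t ∈ A, t ∉ C
  bc : ∀ t ∈ B, t ∉ C

lemma Part.swap1 {n : ℕ} {A B C : Finset ℕ} (h : Part n A B C) : Part n B A C where
  cov t := by rw [← h.cov t]; tauto
  ab t h1 h2 := h.ab t h2 h1
  ac := h.bc
  bc := h.ac

lemma Part.swap2 {n : ℕ} {A B C : Finset ℕ} (h : Part n A B C) : Part n A C B where
  cov t := by rw [← h.cov t]; tauto
  ab := h.ac
  ac := h.ab
  bc t h1 h2 := h.bc t h2 h1

/-- skip the number `f` -/
def sk (f t : ℕ) : ℕ := if t < f then t else t + 1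

lemma sk_inj (f : ℕ) : Function.Injective (sk f) := by
  intro a b h
  unfold sk at h
  split_ifs at h <;> omega

/-- the set after the deletion of `f` -/
def dl (n f : ℕ) (S : Finset ℕ) : Finset ℕ := (Icc 1 n).filter fun t => sk f t ∈ S

lemma card_dl {n f : ℕ} {S : Finset ℕ} (hf1 : 1 ≤ f) (hf : f ≤ n + 1) (hS : ∀ t ∈ S, 1 ≤ t ∧ t ≤ n + 1)
    (hfS : f ∉ S) : (dl n f S).card = S.card := by
  rw [← card_image_of_injective (dl n f S) (sk_inj f)]
  congr 1
  ext t
  simp only [dl, mem_image, mem_filter, mem_Icc]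
  constructor
  · rintro ⟨s, ⟨_, h⟩, rfl⟩
    exact h
  · intro ht
    obtain ⟨h1, h2⟩ := hS t ht
    have h3 : t ≠ f := fun h => hfS (h ▸ ht)
    by_cases h4 : t < f
    · have h5 : sk f t = t := by unfold sk; rw [if_pos h4]
      exact ⟨t, ⟨⟨h1, by omega⟩, by rwa [h5]⟩, h5⟩
    · have h5 : sk f (t - 1) = t := by unfold sk; rw [if_neg (by omega)]; omega
      exact ⟨t - 1, ⟨⟨by omega, by omega⟩, by rwa [h5]⟩, h5⟩

lemma dl_erase {n f : ℕ} {S : Finset ℕ} : dl n f (S.erase f) = dl n f S := by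
  unfold dl
  apply filter_congr
  intro t _
  rw [mem_erase]
  have : sk f t ≠ f := by unfold sk; split_ifs <;> omega
  simp [this]

/-- **Deletion of the first element of a class**: the number of the rainbow triangles does not increase. -/
lemma del_first {n : ℕ} {A B C : Finset ℕ} (h : Part (n + 1) A B C) (hA : A.Nonempty) :
    ∃ A' B' C' : Finset ℕ, Part n A' B' C' ∧ A'.card + 1 = A.card ∧ B'.card = B.card ∧
      C'.card = C.card ∧ G A' B' C' ≤ G A B C := by
  set f := A.min' hA with hfdef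
  have hfA : f ∈ A := min'_mem A hA
  have hmin : ∀ t ∈ A, f ≤ t := fun t ht => min'_le A t ht
  obtain ⟨hf1, hf2⟩ := (h.cov f).1 (Or.inl hfA)
  have hfB : f ∉ B := h.ab f hfA
  have hfC : f ∉ C := h.ac f hfA
  have hsk : ∀ t, 1 ≤ t → t ≤ n → 1 ≤ sk f t ∧ sk f t ≤ n + 1 := by
    intro t h1 h2
    unfold sk
    split_ifs <;> omega
  refine ⟨dl n f A, dl n f B, dl n f C, ⟨?_, ?_, ?_, ?_⟩, ?_, ?_, ?_, ?_⟩
  · intro t
    simp only [dl, mem_filter, mem_Icc]
    constructor
    · rintro (h1 | h1 | h1) <;> exact h1.1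
    · intro h1
      have h2 := (h.cov (sk f t)).2 (hsk t h1.1 h1.2)
      rcases h2 with h2 | h2 | h2
      · exact Or.inl ⟨h1, h2⟩
      · exact Or.inr (Or.inl ⟨h1, h2⟩)
      · exact Or.inr (Or.inr ⟨h1, h2⟩)
  · intro t h1 h2
    simp only [dl, mem_filter] at h1 h2
    exact h.ab _ h1.2 h2.2
  · intro t h1 h2
    simp only [dl, mem_filter] at h1 h2
    exact h.ac _ h1.2 h2.2
  · intro t h1 h2
    simp only [dl, mem_filter] at h1 h2
    exact h.bc _ h1.2 h2.2
  · rw [← dl_erase, card_dl hf1 hf2 ?_ (notMem_erase f A), card_erase_of_mem hfA]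
    · have := card_pos.2 hA
      omega
    · intro t ht
      exact (h.cov t).1 (Or.inl (mem_of_mem_erase ht))
  · exact card_dl hf1 hf2 (fun t ht => (h.cov t).1 (Or.inr (Or.inl ht))) hfB
  · exact card_dl hf1 hf2 (fun t ht => (h.cov t).1 (Or.inr (Or.inr ht))) hfC
  · unfold G
    apply card_le_card_of_injOn
      (fun t : ℕ × ℕ × ℕ => if Tri (sk f t.1) (sk f t.2.1) (sk f t.2.2) then
        (sk f t.1, sk f t.2.1, sk f t.2.2) else (f, sk f t.2.1, sk f t.2.2))
    · rintro ⟨p, q, r⟩ ht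
      simp only [coe_filter, mem_product, dl, mem_filter, mem_Icc, Set.mem_ofPred_eq] at ht ⊢
      obtain ⟨⟨⟨hp, hp'⟩, ⟨hq, hq'⟩, ⟨hr, hr'⟩⟩, ht⟩ := ht
      split_ifs with h1
      · exact ⟨⟨hp', hq', hr'⟩, h1⟩
      · refine ⟨⟨hfA, hq', hr'⟩, ?_⟩
        have h2 := hmin _ hp'
        dsimp only at h1 ⊢
        unfold Tri sk at *
        have hq3 : (if q < f then q else q + 1) ≠ f := by split_ifs <;> omega
        split_ifs at * <;> omega
    · rintro ⟨p, q, r⟩ ht ⟨p', q', r'⟩ ht' heq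
      simp only [coe_filter, mem_product, dl, mem_filter, mem_Icc, Set.mem_ofPred_eq] at ht ht'
      obtain ⟨⟨⟨hp, hp'⟩, ⟨hq, hq'⟩, ⟨hr, hr'⟩⟩, ht⟩ := ht
      obtain ⟨⟨⟨hx, hx'⟩, ⟨hy, hy'⟩, ⟨hz, hz'⟩⟩, ht'⟩ := ht'
      have h2 := hmin _ hp'
      have h3 := hmin _ hx'
      have hne : ∀ t, sk f t ≠ f := by intro t; unfold sk; split_ifs <;> omega
      simp only at heq
      split_ifs at heq with h4 h5 h5
      · simp only [Prod.mk.injEq] at heq ⊢
        exact ⟨sk_inj f heq.1, sk_inj f heq.2.1, sk_inj f heq.2.2⟩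
      · simp only [Prod.mk.injEq] at heq
        exact absurd heq.1 (hne p)
      · simp only [Prod.mk.injEq] at heq
        exact absurd heq.1.symm (hne p')
      · simp only [Prod.mk.injEq] at heq ⊢
        have h6 := sk_inj f heq.2.1
        have h7 := sk_inj f heq.2.2
        subst h6 h7
        refine ⟨?_, rfl, rfl⟩
        unfold Tri sk at *
        split_ifs at * <;> omega

lemma Part.card {n : ℕ} {A B C : Finset ℕ} (h : Part n A B C) : A.card + B.card + C.card = n := by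
  have h1 : Disjoint A B := disjoint_left.2 h.ab
  have h2 : Disjoint (A ∪ B) C := by
    rw [disjoint_union_left]
    exact ⟨disjoint_left.2 h.ac, disjoint_left.2 h.bc⟩
  rw [← card_union_of_disjoint h1, ← card_union_of_disjoint h2]
  have h3 : A ∪ B ∪ C = Icc 1 n := by
    ext t
    rw [mem_union, mem_union, mem_Icc, ← h.cov t]
    tauto
  rw [h3]
  simp

/-- The reduction to three classes of the same size. -/
lemma reduce (a : ℕ) : ∀ (s n : ℕ) (A B C : Finset ℕ), n = 3 * a + s → Part n A B C → a ≤ A.card → a ≤ B.card →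
    a ≤ C.card → ∃ A' B' C' : Finset ℕ, Part (3 * a) A' B' C' ∧ A'.card = a ∧ B'.card = a ∧
      C'.card = a ∧ G A' B' C' ≤ G A B C := by
  intro s
  induction s with
  | zero =>
    intro n A B C hn h hA hB hC
    have := h.card
    have hn' : n = 3 * a := by omega
    subst hn'
    exact ⟨A, B, C, h, by omega, by omega, by omega, le_refl _⟩
  | succ s ih =>
    intro n A B C hn h hA hB hC
    have h0 := h.card
    obtain ⟨n', rfl⟩ : ∃ n', n = n' + 1 := ⟨3 * a + s, by omega⟩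
    have hn' : n' = 3 * a + s := by omega
    by_cases hA' : a < A.card
    · obtain ⟨A', B', C', h1, h2, h3, h4, h5⟩ := del_first h (card_pos.1 (by omega))
      obtain ⟨A2, B2, C2, h6, h7, h8, h9, h10⟩ := ih n' A' B' C' hn' h1 (by omega) (by omega) (by omega)
      exact ⟨A2, B2, C2, h6, h7, h8, h9, h10.trans h5⟩
    by_cases hB' : a < B.card
    · obtain ⟨B', A', C', h1, h2, h3, h4, h5⟩ := del_first h.swap1 (card_pos.1 (by omega))
      obtain ⟨A2, B2, C2, h6, h7, h8, h9, h10⟩ := ih n' A' B' C' hn' h1.swap1 (by omega) (by omega) (by omega)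
      refine ⟨A2, B2, C2, h6, h7, h8, h9, h10.trans ?_⟩
      rw [G_swap1 A' B' C', G_swap1 A B C]
      exact h5
    · obtain ⟨C', A', B', h1, h2, h3, h4, h5⟩ := del_first h.swap2.swap1 (card_pos.1 (by omega))
      obtain ⟨A2, B2, C2, h6, h7, h8, h9, h10⟩ := ih n' A' B' C' hn' h1.swap1.swap2 (by omega) (by omega) (by omega)
      refine ⟨A2, B2, C2, h6, h7, h8, h9, h10.trans ?_⟩
      rw [G_swap2 A' B' C', G_swap1 A' C' B', G_swap2 A B C, G_swap1 A C B]
      exact h5

end Pool.Agent.Q277.RB
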