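import Pool.Agent.Q277.RB.Bal

/-!
# Rainbow solutions of `x + y < z`
-/

set_option autoImplicit false

namespace Pool.Agent.Q277.RB

open Finset

lemma general {n a : ℕ} {A B C : Finset ℕ} (h : Part n A B C) (hA : a ≤ A.card) (hB : a ≤ B.card)
    (hC : a ≤ C.card) : 4 * (a : ℤ) ^ 3 ≤ 24 * (G A B C : ℤ) + 9 * (a : ℤ) ^ 2 := by
  have hc := h.card
  obtain ⟨A', B', C', h1, h2, h3, h4, h5⟩ := reduce a (n - 3 * a) n A B C (by omega) h hA hB hC
  have h6 := balanced h1 h2 h3 h4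
  have h7 : (G A' B' C' : ℤ) ≤ G A B C := by exact_mod_cast h5
  linarith

/-- the rainbow solutions of `x + y < z` in `[1, n]` -/
def sol (n : ℕ) (χ : ℕ → Fin 3) : Finset (ℕ × ℕ × ℕ) :=
  (Icc 1 n ×ˢ Icc 1 n ×ˢ Icc 1 n).filter fun s => s.1 ≤ s.2.1 ∧ s.1 + s.2.1 < s.2.2 ∧
    χ s.1 ≠ χ s.2.1 ∧ χ s.1 ≠ χ s.2.2 ∧ χ s.2.1 ≠ χ s.2.2

/-- the class of the colour `c` -/
def cls (n : ℕ) (χ : ℕ → Fin 3) (c : Fin 3) : Finset ℕ := (Icc 1 n).filter fun t => χ t = c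

lemma part_cls (n : ℕ) (χ : ℕ → Fin 3) : Part n (cls n χ 0) (cls n χ 1) (cls n χ 2) := by
  have h3 : ∀ i : Fin 3, i = 0 ∨ i = 1 ∨ i = 2 := by decide
  refine ⟨?_, ?_, ?_, ?_⟩
  · intro t
    simp only [cls, mem_filter, mem_Icc]
    have := h3 (χ t)
    tauto
  · intro t h1 h2
    simp only [cls, mem_filter] at h1 h2
    rw [h1.2] at h2
    exact absurd h2.2 (by decide)
  · intro t h1 h2
    simp only [cls, mem_filter] at h1 h2
    rw [h1.2] at h2
    exact absurd h2.2 (by decide)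
  · intro t h1 h2
    simp only [cls, mem_filter] at h1 h2
    rw [h1.2] at h2
    exact absurd h2.2 (by decide)

/-- the element of colour `c` -/
def pk (χ : ℕ → Fin 3) (c : Fin 3) (s : ℕ × ℕ × ℕ) : ℕ :=
  if χ s.1 = c then s.1 else if χ s.2.1 = c then s.2.1 else s.2.2

lemma six : ∀ i j k : Fin 3, i ≠ j → i ≠ k → j ≠ k →
    (i = 0 ∧ j = 1 ∧ k = 2) ∨ (i = 0 ∧ j = 2 ∧ k = 1) ∨ (i = 1 ∧ j = 0 ∧ k = 2) ∨
    (i = 1 ∧ j = 2 ∧ k = 0) ∨ (i = 2 ∧ j = 0 ∧ k = 1) ∨ (i = 2 ∧ j = 1 ∧ k = 0) := by decide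

lemma sol_add_G (n : ℕ) (χ : ℕ → Fin 3) :
    (sol n χ).card + G (cls n χ 0) (cls n χ 1) (cls n χ 2) ≤
      (cls n χ 0).card * (cls n χ 1).card * (cls n χ 2).card := by
  have h1 : (sol n χ).card ≤ ((cls n χ 0 ×ˢ cls n χ 1 ×ˢ cls n χ 2).filter
      fun t => ¬ Tri t.1 t.2.1 t.2.2).card := by
    apply card_le_card_of_injOn (fun s => (pk χ 0 s, pk χ 1 s, pk χ 2 s))
    · rintro ⟨x, y, z⟩ hs
      simp only [sol, coe_filter, mem_product, mem_Icc, Set.mem_ofPred_eq] at hs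
      obtain ⟨⟨hx, hy, hz⟩, h1, h2, h3, h4, h5⟩ := hs
      simp only [coe_filter, mem_product, cls, mem_filter, mem_Icc, Set.mem_ofPred_eq, pk]
      rcases six _ _ _ h3 h4 h5 with ⟨c1, c2, c3⟩ | ⟨c1, c2, c3⟩ | ⟨c1, c2, c3⟩ | ⟨c1, c2, c3⟩ |
        ⟨c1, c2, c3⟩ | ⟨c1, c2, c3⟩ <;> simp [c1, c2, c3, Tri] <;> omega
    · rintro ⟨x, y, z⟩ hs ⟨x', y', z'⟩ hs' heq
      simp only [sol, coe_filter, mem_product, mem_Icc, Set.mem_ofPred_eq] at hs hs'
      obtain ⟨⟨hx, hy, hz⟩, h1, h2, h3, h4, h5⟩ := hs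
      obtain ⟨⟨hx', hy', hz'⟩, h1', h2', h3', h4', h5'⟩ := hs'
      have hne : x ≠ y := fun h => h3 (by rw [h])
      have hne' : x' ≠ y' := fun h => h3' (by rw [h])
      simp only [pk] at heq
      rcases six _ _ _ h3 h4 h5 with ⟨c1, c2, c3⟩ | ⟨c1, c2, c3⟩ | ⟨c1, c2, c3⟩ | ⟨c1, c2, c3⟩ |
        ⟨c1, c2, c3⟩ | ⟨c1, c2, c3⟩ <;>
      rcases six _ _ _ h3' h4' h5' with ⟨d1, d2, d3⟩ | ⟨d1, d2, d3⟩ | ⟨d1, d2, d3⟩ | ⟨d1, d2, d3⟩ |
        ⟨d1, d2, d3⟩ | ⟨d1, d2, d3⟩ <;>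
      simp [c1, c2, c3, d1, d2, d3] at heq <;> simp only [Prod.mk.injEq] <;> omega
  have h2 : G (cls n χ 0) (cls n χ 1) (cls n χ 2) + ((cls n χ 0 ×ˢ cls n χ 1 ×ˢ cls n χ 2).filter
      fun t => ¬ Tri t.1 t.2.1 t.2.2).card = (cls n χ 0 ×ˢ cls n χ 1 ×ˢ cls n χ 2).card :=
    card_filter_add_card_filter_not _
  rw [card_product, card_product, ← mul_assoc] at h2
  omega

/-- the maximum of the cubic polynomial -/
lemma cubic (s n a : ℝ) (hs : s ^ 2 = 3) (hs1 : 0 ≤ s) (hn : 0 ≤ n) (ha : a ≤ n) :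
    a * (n - a) ^ 2 / 4 - a ^ 3 / 6 ≤ (3 * s - 5) / 6 * n ^ 3 := by
  have h1 : 12 * ((3 * s - 5) / 6 * n ^ 3) - 12 * (a * (n - a) ^ 2 / 4 - a ^ 3 / 6) =
      (a - (2 - s) * n) ^ 2 * ((2 + 2 * s) * n - a) := by
    linear_combination (-(3 * a * n ^ 2 + (2 * s - 6) * n ^ 3)) * hs
  have h2 : 0 ≤ (a - (2 - s) * n) ^ 2 * ((2 + 2 * s) * n - a) := by
    apply mul_nonneg (sq_nonneg _)
    have : 0 ≤ s * n := mul_nonneg hs1 hn
    nlinarith
  linarith

lemma upper_aux {n a b c : ℕ} {A B C : Finset ℕ} {N : ℕ} (hP : Part n A B C) (ha : A.card = a) (hb : B.card = b)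
    (hc : C.card = c) (hab : a ≤ b) (hac : a ≤ c) (hN : N + G A B C ≤ a * b * c) :
    (N : ℝ) ≤ (3 * √3 - 5) / 6 * n ^ 3 + n ^ 2 := by
  have h1 := general hP (a := a) (by omega) (by omega) (by omega)
  have h2 := hP.card
  rw [ha, hb, hc] at h2
  have h3 : (N : ℝ) + G A B C ≤ a * b * c := by exact_mod_cast hN
  have h4 : 4 * (a : ℝ) ^ 3 ≤ 24 * (G A B C : ℝ) + 9 * (a : ℝ) ^ 2 := by exact_mod_cast h1
  have h5 : (n : ℝ) = a + b + c := by exact_mod_cast h2.symm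
  have hs : (√3 : ℝ) ^ 2 = 3 := Real.sq_sqrt (by norm_num)
  have a0 : (0 : ℝ) ≤ a := Nat.cast_nonneg a
  have b0 : (0 : ℝ) ≤ b := Nat.cast_nonneg b
  have c0 : (0 : ℝ) ≤ c := Nat.cast_nonneg c
  have h6 := cubic √3 n a hs (Real.sqrt_nonneg 3) (Nat.cast_nonneg n) (by rw [h5]; linarith)
  have h7 : (a : ℝ) * b * c ≤ a * (n - a) ^ 2 / 4 := by
    have : (n : ℝ) - a = b + c := by rw [h5]; ring
    rw [this]
    nlinarith [mul_nonneg a0 (sq_nonneg ((b : ℝ) - c))]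
  have h8 : 9 / 24 * (a : ℝ) ^ 2 ≤ (n : ℝ) ^ 2 := by
    have : (a : ℝ) ≤ n := by rw [h5]; linarith
    nlinarith
  linarith

/-- **The upper bound.** -/
lemma upper (n : ℕ) (χ : ℕ → Fin 3) : ((sol n χ).card : ℝ) ≤ (3 * √3 - 5) / 6 * n ^ 3 + n ^ 2 := by
  have hP := part_cls n χ
  have h := sol_add_G n χ
  set A := cls n χ 0
  set B := cls n χ 1
  set C := cls n χ 2
  rcases le_total A.card B.card with h1 | h1
  · rcases le_total A.card C.card with h2 | h2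
    · exact upper_aux hP rfl rfl rfl h1 h2 h
    · refine upper_aux hP.swap2.swap1 rfl rfl rfl h2 (h2.trans h1) ?_
      rw [G_swap2, G_swap1] at h
      calc _ ≤ _ := h
        _ = _ := by ring
  · rcases le_total B.card C.card with h2 | h2
    · refine upper_aux hP.swap1 rfl rfl rfl h1 h2 ?_
      rw [G_swap1] at h
      calc _ ≤ _ := h
        _ = _ := by ring
    · refine upper_aux hP.swap2.swap1 rfl rfl rfl (h2.trans h1) h2 ?_
      rw [G_swap2, G_swap1] at h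
      calc _ ≤ _ := h
        _ = _ := by ring

/-! ### The lower bound -/

/-- the colouring with the intervals `[1, p]`, `(p, p + q]`, `(p + q, n]` -/
def col (p q t : ℕ) : Fin 3 := if t ≤ p then 0 else if t ≤ p + q then 1 else 2

lemma sum_tri (x q : ℕ) : 2 * ∑ j ∈ range q, (x - j) + (x - q) * (x - q + 1) = x * (x + 1) := by
  induction q with
  | zero => simp
  | succ q ih =>
    rw [sum_range_succ, ← ih]
    rcases le_or_gt x q with h | h
    · rw [Nat.sub_eq_zero_of_le h, Nat.sub_eq_zero_of_le (by omega)]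
      simp
    · obtain ⟨j, rfl⟩ : ∃ j, x = q + 1 + j := ⟨x - (q + 1), by omega⟩
      have e1 : q + 1 + j - q = j + 1 := by omega
      have e2 : q + 1 + j - (q + 1) = j := by omega
      rw [e1, e2]
      ring

lemma sum_tet (p : ℕ) : 3 * ∑ x ∈ Icc 1 p, x * (x + 1) = p * (p + 1) * (p + 2) := by
  induction p with
  | zero => simp
  | succ p ih =>
    rw [sum_Icc_succ_top (by omega), mul_add, ih]
    ring

lemma lower_count (p q r : ℕ) : 6 * (p * q * r) ≤ 6 * (sol (p + q + r) (col p q)).card + p * (p + 1) * (p + 2) := by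
  set X := Icc 1 p
  set Y := Ioc p (p + q)
  set Z := Ioc (p + q) (p + q + r)
  have h1 : ((X ×ˢ Y ×ˢ Z).filter fun s => s.1 + s.2.1 < s.2.2).card ≤ (sol (p + q + r) (col p q)).card := by
    apply card_le_card
    rintro ⟨x, y, z⟩ hs
    simp only [X, Y, Z, mem_filter, mem_product, mem_Icc, mem_Ioc] at hs
    simp only [sol, mem_filter, mem_product, mem_Icc]
    have c1 : col p q x = 0 := by unfold col; rw [if_pos (by omega)]
    have c2 : col p q y = 1 := by unfold col; rw [if_neg (by omega), if_pos (by omega)]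
    have c3 : col p q z = 2 := by unfold col; rw [if_neg (by omega), if_neg (by omega)]
    rw [c1, c2, c3]
    refine ⟨⟨⟨by omega, by omega⟩, ⟨by omega, by omega⟩, ⟨by omega, by omega⟩⟩, by omega, by omega, by decide,
      by decide, by decide⟩
  have h2 : ((X ×ˢ Y ×ˢ Z).filter fun s => s.1 + s.2.1 < s.2.2).card +
      ((X ×ˢ Y ×ˢ Z).filter fun s => ¬ s.1 + s.2.1 < s.2.2).card = (X ×ˢ Y ×ˢ Z).card :=
    card_filter_add_card_filter_not _
  have h3 : (X ×ˢ Y ×ˢ Z).card = p * q * r := by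
    rw [card_product, card_product, Nat.card_Icc, Nat.card_Ioc, Nat.card_Ioc]
    have e1 : p + 1 - 1 = p := by omega
    have e2 : p + q - p = q := by omega
    have e3 : p + q + r - (p + q) = r := by omega
    rw [e1, e2, e3]
    ring
  have h4 : ((X ×ˢ Y ×ˢ Z).filter fun s => ¬ s.1 + s.2.1 < s.2.2).card ≤
      ∑ x ∈ X, ∑ y ∈ Y, (x + y - (p + q)) := by
    rw [card_filter, sum_product]
    apply sum_le_sum
    intro x _
    rw [sum_product]
    apply sum_le_sum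
    intro y _
    rw [← card_filter]
    have : (Z.filter fun z => ¬ x + y < z) ⊆ Ioc (p + q) (x + y) := by
      intro z hz
      rw [mem_filter, mem_Ioc] at hz
      rw [mem_Ioc]
      omega
    refine (card_le_card this).trans ?_
    rw [Nat.card_Ioc]
  have h5 : ∀ x ∈ X, 2 * ∑ y ∈ Y, (x + y - (p + q)) ≤ x * (x + 1) := by
    intro x _
    have e1 : ∑ y ∈ Y, (x + y - (p + q)) = ∑ j ∈ range q, (x - j) := by
      apply Finset.sum_nbij' (fun y => p + q - y) (fun j => p + q - j)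
      · intro y hy
        rw [mem_Ioc] at hy
        rw [mem_range]
        omega
      · intro j hj
        rw [mem_range] at hj
        rw [mem_Ioc]
        omega
      · intro y hy
        rw [mem_Ioc] at hy
        omega
      · intro j hj
        rw [mem_range] at hj
        omega
      · intro y hy
        rw [mem_Ioc] at hy
        omega
    have e2 := sum_tri x q
    rw [e1]
    omega
  have h6 : 2 * ∑ x ∈ X, ∑ y ∈ Y, (x + y - (p + q)) ≤ ∑ x ∈ X, x * (x + 1) := by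
    rw [mul_sum]
    exact sum_le_sum h5
  have h7 : 3 * ∑ x ∈ X, x * (x + 1) = p * (p + 1) * (p + 2) := sum_tet p
  rw [h3] at h2
  have h8 : 6 * (p * q * r) = 6 * ((X ×ˢ Y ×ˢ Z).filter fun s => s.1 + s.2.1 < s.2.2).card +
      6 * ((X ×ˢ Y ×ˢ Z).filter fun s => ¬ s.1 + s.2.1 < s.2.2).card := by rw [← h2]; ring
  rw [h8, ← h7]
  omega

/-- **The lower bound.** -/
lemma lower (n : ℕ) : ∃ χ : ℕ → Fin 3, (3 * √3 - 5) / 6 * (n : ℝ) ^ 3 - n ^ 2 ≤ (sol n χ).card := by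
  set s : ℝ := √3 with hsd
  have hs : s ^ 2 = 3 := Real.sq_sqrt (by norm_num)
  have hs0 : 0 ≤ s := Real.sqrt_nonneg 3
  have hs1 : 5 / 3 ≤ s := by
    by_contra h
    rw [not_le] at h
    nlinarith
  have hs2 : s ≤ 2 := by
    by_contra h
    rw [not_le] at h
    nlinarith
  obtain ⟨p, hp⟩ : ∃ p, p = ⌊(2 - s) * n⌋₊ := ⟨_, rfl⟩
  have n0 : (0 : ℝ) ≤ n := Nat.cast_nonneg n
  have hp0 : 0 ≤ (2 - s) * n := mul_nonneg (by linarith) n0
  have hp1 : (p : ℝ) ≤ (2 - s) * n := by rw [hp]; exact Nat.floor_le hp0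
  have hp2 : (2 - s) * n < p + 1 := by rw [hp]; exact Nat.lt_floor_add_one _
  have hp3 : 3 * (p : ℝ) ≤ n := by nlinarith
  have hpn : p ≤ n := by
    have : (p : ℝ) ≤ n := by linarith [Nat.cast_nonneg (α := ℝ) p]
    exact_mod_cast this
  obtain ⟨q, hq⟩ : ∃ q, q = (n - p) / 2 := ⟨_, rfl⟩
  obtain ⟨r, hr⟩ : ∃ r, r = n - p - q := ⟨_, rfl⟩
  have hn : n = p + q + r := by omega
  have hqr : (n - p) ^ 2 ≤ 4 * (q * r) + 1 := by
    rcases Nat.even_or_odd' (n - p) with ⟨j, hj | hj⟩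
    · have e1 : q = j := by omega
      have e2 : r = j := by omega
      rw [hj, e1, e2]
      nlinarith
    · have e1 : q = j := by omega
      have e2 : r = j + 1 := by omega
      rw [hj, e1, e2]
      nlinarith
  have h1 := lower_count p q r
  rw [← hn] at h1
  refine ⟨col p q, ?_⟩
  have p0 : (0 : ℝ) ≤ p := Nat.cast_nonneg p
  have h2 : 6 * ((p : ℝ) * q * r) ≤ 6 * ((sol n (col p q)).card : ℝ) + p * (p + 1) * (p + 2) := by
    exact_mod_cast h1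
  have h3 : ((n : ℝ) - p) ^ 2 ≤ 4 * (q * r) + 1 := by
    have : ((n - p : ℕ) : ℝ) ^ 2 ≤ 4 * (q * r) + 1 := by exact_mod_cast hqr
    rwa [Nat.cast_sub hpn] at this
  have h4 : (p : ℝ) * ((n : ℝ) - p) ^ 2 ≤ p * (4 * (q * r) + 1) := mul_le_mul_of_nonneg_left h3 p0
  have h5 : 12 * ((3 * s - 5) / 6 * (n : ℝ) ^ 3) - 12 * ((p : ℝ) * (n - p) ^ 2 / 4 - p ^ 3 / 6) =
      (p - (2 - s) * n) ^ 2 * ((2 + 2 * s) * n - p) := by
    linear_combination (-(3 * (p : ℝ) * n ^ 2 + (2 * s - 6) * n ^ 3)) * hs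
  have h6 : ((p : ℝ) - (2 - s) * n) ^ 2 * ((2 + 2 * s) * n - p) ≤ 1 * (6 * n) := by
    apply mul_le_mul
    · nlinarith
    · nlinarith
    · nlinarith
    · norm_num
  have h7 : (n : ℝ) ≤ (n : ℝ) ^ 2 := by exact_mod_cast Nat.le_self_pow (n := 2) (by norm_num) n
  have h8 : (p : ℝ) ^ 2 ≤ (n / 3) ^ 2 := by
    apply pow_le_pow_left₀ p0
    linarith
  nlinarith

end Pool.Agent.Q277.RB
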